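import Pool.Agent.R254.BH.Stm

/-! Piece A of MP_462b8b_an: solving `-Δw + μw = f` in the Schwartz class. -/

set_option autoImplicit false

open MeasureTheory Set Filter Topology
open scoped ContDiff Laplacian SchwartzMap

namespace Pool.Agent.R254.BH

/-- the integration by parts inequality -/
theorem int_mul_lap_nonpos {n : ℕ} (w : 𝓢(E n, ℝ)) :
    ∫ x, w x * (Δ w : 𝓢(E n, ℝ)) x ≤ 0 := by
  have h1 : ∀ x, w x * (Δ w : 𝓢(E n, ℝ)) x = ∑ i : Fin (Module.finrank ℝ (E n)),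
      w x * (LineDeriv.lineDerivOp (stdOrthonormalBasis ℝ (E n) i)
        (LineDeriv.lineDerivOp (stdOrthonormalBasis ℝ (E n) i) w) : 𝓢(E n, ℝ)) x := by
    intro x
    rw [SchwartzMap.laplacian_eq_sum (stdOrthonormalBasis ℝ (E n))]
    simp [Finset.mul_sum]
  have hint : ∀ u v : 𝓢(E n, ℝ), Integrable (fun x => u x * v x) := by
    intro u v
    exact (u.memLp 2).integrable_mul (v.memLp 2)
  rw [integral_congr_ae (ae_of_all _ h1), integral_finsetSum _ (fun i _ => hint _ _)]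
  apply Finset.sum_nonpos
  intro i _
  rw [SchwartzMap.integral_mul_lineDerivOp_right_eq_neg_left, neg_nonpos]
  apply integral_nonneg
  intro x
  exact mul_self_nonneg _

theorem lap_sq_le {n : ℕ} (w : 𝓢(E n, ℝ)) (μ : ℝ) (hμ : 0 < μ) (f : E n → ℝ)
    (h : ∀ x, -((Δ w : 𝓢(E n, ℝ)) x) + μ * w x = f x) :
    ∫ x, ((Δ w : 𝓢(E n, ℝ)) x) ^ 2 ≤ ∫ x, (f x) ^ 2 := by
  have hint : ∀ u v : 𝓢(E n, ℝ), Integrable (fun x => u x * v x) := by
    intro u v
    exact (u.memLp 2).integrable_mul (v.memLp 2)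
  have h1 : ∀ x, (f x) ^ 2 = ((Δ w : 𝓢(E n, ℝ)) x) ^ 2 + (-(2 * μ)) * (w x * (Δ w : 𝓢(E n, ℝ)) x) +
      μ ^ 2 * (w x * w x) := by
    intro x
    rw [← h x]
    ring
  have h2 : Integrable (fun x => ((Δ w : 𝓢(E n, ℝ)) x) ^ 2) := by
    refine (hint (Δ w) (Δ w)).congr (ae_of_all _ fun x => ?_)
    simp only
    ring
  have h5 : Integrable (fun x => ((Δ w : 𝓢(E n, ℝ)) x) ^ 2 +
      (-(2 * μ)) * (w x * (Δ w : 𝓢(E n, ℝ)) x)) := h2.add ((hint _ _).const_mul _)
  rw [integral_congr_ae (ae_of_all _ h1), integral_add h5 ((hint _ _).const_mul _),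
    integral_add h2 ((hint _ _).const_mul _), integral_const_mul, integral_const_mul]
  have h3 := int_mul_lap_nonpos w
  have h4 : 0 ≤ ∫ x, w x * w x := integral_nonneg fun x => mul_self_nonneg _
  nlinarith [mul_nonneg (sq_nonneg μ) h4, mul_nonneg hμ.le (neg_nonneg.2 h3)]

/-- the multiplier -/
theorem growth_mult {n : ℕ} {μ : ℝ} (hμ : 0 < μ) :
    (fun ξ : E n => (μ + (2 * Real.pi) ^ 2 * ‖ξ‖ ^ 2)⁻¹).HasTemperateGrowth := by
  have h1 := Function.hasTemperateGrowth_one_add_norm_sq_rpow (E n) (-1)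
  have h2 : (fun ξ : E n => (2 * Real.pi / Real.sqrt μ) • ξ).HasTemperateGrowth := by
    fun_prop
  have h3 := (h1.comp h2)
  have h4 : (fun _ : E n => μ⁻¹).HasTemperateGrowth := Function.HasTemperateGrowth.const _
  have h5 := h4.mul h3
  have hfun : (fun ξ : E n => (μ + (2 * Real.pi) ^ 2 * ‖ξ‖ ^ 2)⁻¹) =
      (fun _ : E n => μ⁻¹) * ((fun x : E n => (1 + ‖x‖ ^ 2) ^ (-1 : ℝ)) ∘
        fun ξ : E n => (2 * Real.pi / Real.sqrt μ) • ξ) := by
    funext ξ
    have hs : Real.sqrt μ ^ 2 = μ := Real.sq_sqrt hμ.le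
    have hs0 : 0 < Real.sqrt μ := Real.sqrt_pos.2 hμ
    simp only [Pi.mul_apply, Function.comp]
    rw [Real.rpow_neg_one, norm_smul, Real.norm_of_nonneg (by positivity), ← mul_inv]
    congr 1
    have h6 : (2 * Real.pi / Real.sqrt μ * ‖ξ‖) ^ 2 = (2 * Real.pi) ^ 2 * ‖ξ‖ ^ 2 / μ := by
      rw [mul_pow, div_pow, hs]; ring
    rw [h6]
    field_simp
  rw [hfun]
  exact h5

theorem stmtA : StmtA := by
  intro n μ f hμ hf
  have hfC : ContDiff ℝ ∞ (fun x => (f x : ℂ)) := Complex.ofRealCLM.contDiff.comp hf.1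
  have hfK : HasCompactSupport (fun x => (f x : ℂ)) := 
    HasCompactSupport.comp_left (g := fun r : ℝ => (r : ℂ)) hf.2 (by simp)
  obtain ⟨F, hF⟩ : ∃ F : 𝓢(E n, ℂ), ∀ x, F x = f x := ⟨hfK.toSchwartzMap hfC, fun x => rfl⟩
  obtain ⟨g, hg⟩ : ∃ g : E n → ℝ, g = fun ξ : E n => (μ + (2 * Real.pi) ^ 2 * ‖ξ‖ ^ 2)⁻¹ :=
    ⟨_, rfl⟩
  have hgg : g.HasTemperateGrowth := by rw [hg]; exact growth_mult hμ
  have hn2 : (fun ξ : E n => ‖ξ‖ ^ 2).HasTemperateGrowth := by fun_prop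
  obtain ⟨W, hW⟩ : ∃ W, W = SchwartzMap.fourierMultiplierCLM ℂ g F := ⟨_, rfl⟩
  have hcon : SchwartzMap.fourierMultiplierCLM ℂ (fun _ : E n => (1 : ℝ)) F = F := by
    rw [SchwartzMap.fourierMultiplierCLM_const, one_smul]
    rfl
  have hadd : ∀ g₁ g₂ : E n → ℝ, g₁.HasTemperateGrowth → g₂.HasTemperateGrowth →
      SchwartzMap.fourierMultiplierCLM ℂ (g₁ + g₂) F = SchwartzMap.fourierMultiplierCLM ℂ g₁ F +
        SchwartzMap.fourierMultiplierCLM ℂ g₂ F := by
    intro g₁ g₂ h1 h2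
    rw [SchwartzMap.fourierMultiplierCLM_apply, SchwartzMap.smulLeftCLM_add h1 h2,
      SchwartzMap.fourierMultiplierCLM_apply, SchwartzMap.fourierMultiplierCLM_apply,
      ← FourierTransform.fourierInv_add]
    rfl
  have heq : -(Δ W) + μ • W = F := by
    rw [SchwartzMap.laplacian_eq_fourierMultiplierCLM, hW,
      SchwartzMap.fourierMultiplierCLM_fourierMultiplierCLM_apply (by fun_prop) hgg]
    have e1 : ((fun _ : E n => (1 : ℝ))) = ((2 * Real.pi) ^ 2) • ((‖·‖ ^ 2) * g) + μ • g := by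
      funext ξ
      rw [hg]
      simp only [Pi.add_apply, Pi.smul_apply, Pi.mul_apply, smul_eq_mul]
      have : μ + (2 * Real.pi) ^ 2 * ‖ξ‖ ^ 2 ≠ 0 := by positivity
      field_simp
      ring
    have hng : ((fun ξ : E n => ‖ξ‖ ^ 2) * g).HasTemperateGrowth := hn2.mul hgg
    have e2 : SchwartzMap.fourierMultiplierCLM ℂ (((2 * Real.pi) ^ 2) • ((‖·‖ ^ 2) * g) + μ • g) F =
        F := by rw [← e1]; exact hcon
    have hcs : ∀ (c : ℝ) (G : E n → ℝ), G.HasTemperateGrowth → (c • G).HasTemperateGrowth :=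
      fun c G h => (Function.HasTemperateGrowth.const c).mul h
    rw [hadd _ _ (hcs _ _ hng) (hcs _ _ hgg), SchwartzMap.fourierMultiplierCLM_smul hng,
      SchwartzMap.fourierMultiplierCLM_smul hgg] at e2
    rw [neg_smul, neg_neg]
    exact e2
  have hre : ∀ x, (Δ (W.postcompCLM Complex.reCLM) : 𝓢(E n, ℝ)) x = ((Δ W : 𝓢(E n, ℂ)) x).re := by
    intro x
    rw [SchwartzMap.laplacian_apply, SchwartzMap.laplacian_apply]
    have h1 := ContDiffAt.laplacian_CLM_comp_left (l := Complex.reCLM) (f := (W : E n → ℂ))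
      (x := x) ((W.smooth 2).contDiffAt)
    have h2 : (W.postcompCLM Complex.reCLM : E n → ℝ) = Complex.reCLM ∘ (W : E n → ℂ) := by
      funext y
      rw [SchwartzMap.postcompCLM_apply]
      rfl
    rw [h2, h1]
    rfl
  have hsol : ∀ x, -((Δ (W.postcompCLM Complex.reCLM) : 𝓢(E n, ℝ)) x) +
      μ * (W.postcompCLM Complex.reCLM) x = f x := by
    intro x
    have h1 := congrArg (fun G : 𝓢(E n, ℂ) => (G x).re) heq
    simp only [add_apply, neg_apply, smul_apply, hF,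
      Complex.add_re, Complex.neg_re, Complex.smul_re, Complex.ofReal_re, smul_eq_mul] at h1
    rw [hre, SchwartzMap.postcompCLM_apply]
    exact h1
  refine ⟨W.postcompCLM Complex.reCLM, ?_, ?_⟩
  · intro x
    rw [← SchwartzMap.laplacian_apply]
    exact hsol x
  · have := lap_sq_le (W.postcompCLM Complex.reCLM) μ hμ f hsol
    simpa only [SchwartzMap.laplacian_apply] using this

end Pool.Agent.R254.BH
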