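import Pool.Agent.R254.BH.Stm

/-! Piece B of MP_462b8b_an: Schwartz functions belong to `D²`. -/

set_option autoImplicit false

open MeasureTheory Set Filter Topology
open scoped ContDiff Laplacian SchwartzMap

namespace Pool.Agent.R254.BH

theorem abs_lap_le {n : ℕ} (f : E n → ℝ) (x : E n) :
    |Δ f x| ≤ n * ‖iteratedFDeriv ℝ 2 f x‖ := by
  rw [InnerProductSpace.laplacian_eq_iteratedFDeriv_orthonormalBasis f
    (EuclideanSpace.basisFun (Fin n) ℝ)]
  calc |∑ i, iteratedFDeriv ℝ 2 f x ![EuclideanSpace.basisFun (Fin n) ℝ i,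
        EuclideanSpace.basisFun (Fin n) ℝ i]|
      ≤ ∑ i, |iteratedFDeriv ℝ 2 f x ![EuclideanSpace.basisFun (Fin n) ℝ i,
        EuclideanSpace.basisFun (Fin n) ℝ i]| := Finset.abs_sum_le_sum_abs _ _
    _ ≤ ∑ i : Fin n, ‖iteratedFDeriv ℝ 2 f x‖ := by
        apply Finset.sum_le_sum
        intro i _
        have h1 := (iteratedFDeriv ℝ 2 f x).le_opNorm ![EuclideanSpace.basisFun (Fin n) ℝ i,
          EuclideanSpace.basisFun (Fin n) ℝ i]
        simpa [Fin.prod_univ_two] using h1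
    _ = n * ‖iteratedFDeriv ℝ 2 f x‖ := by simp

/-- derivatives of a rescaled function -/
theorem norm_iter_comp_smul {n : ℕ} {f : E n → ℝ} (hf : ContDiff ℝ ∞ f) {c : ℝ} (hc0 : 0 ≤ c)
    (hc1 : c ≤ 1) (i : ℕ) {M : ℝ} (hM : ∀ x, ‖iteratedFDeriv ℝ i f x‖ ≤ M) (x : E n) :
    ‖iteratedFDeriv ℝ i (fun y => f (c • y)) x‖ ≤ M := by
  have h1 := ContinuousLinearMap.iteratedFDeriv_comp_right (c • ContinuousLinearMap.id ℝ (E n))
    (hf.of_le (m := (i : ℕ∞ω)) (by exact_mod_cast le_top)) x (le_refl (i : ℕ∞ω))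
  have h2 : (f ∘ (c • ContinuousLinearMap.id ℝ (E n))) = fun y => f (c • y) := rfl
  rw [h2] at h1
  rw [h1]
  refine (ContinuousMultilinearMap.norm_compContinuousLinearMap_le _ _).trans ?_
  have h3 : ‖(c • ContinuousLinearMap.id ℝ (E n))‖ ≤ 1 := by
    rw [norm_smul, Real.norm_of_nonneg hc0]
    calc c * ‖ContinuousLinearMap.id ℝ (E n)‖ ≤ 1 * 1 :=
          mul_le_mul hc1 ContinuousLinearMap.norm_id_le (norm_nonneg _) (by norm_num)
      _ = 1 := one_mul 1
  have h4 : ∏ _j : Fin i, ‖(c • ContinuousLinearMap.id ℝ (E n))‖ ≤ 1 :=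
    Finset.prod_le_one (fun _ _ => norm_nonneg _) (fun _ _ => h3)
  calc _ ≤ ‖iteratedFDeriv ℝ i f ((c • ContinuousLinearMap.id ℝ (E n)) x)‖ * 1 :=
        mul_le_mul_of_nonneg_left h4 (norm_nonneg _)
    _ ≤ M := by rw [mul_one]; exact hM _

theorem stmtB : StmtB := by
  intro n hn w
  -- the cutoff function
  obtain ⟨χ, hχ1, hχ2, hχ3, hχ4, hχ5⟩ : ∃ χ : E n → ℝ, ContDiff ℝ ∞ χ ∧ HasCompactSupport χ ∧
      (∀ x, 0 ≤ χ x) ∧ (∀ x, χ x ≤ 1) ∧ ∀ x, ‖x‖ ≤ 1 → χ x = 1 := by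
    let b : ContDiffBump (0 : E n) := ⟨1, 2, by norm_num, by norm_num⟩
    refine ⟨b, b.contDiff, b.hasCompactSupport, fun x => b.nonneg, fun x => b.le_one, ?_⟩
    intro x hx
    apply b.one_of_mem_closedBall
    rw [mem_closedBall_zero_iff]
    exact hx
  have hM : ∀ i : ℕ, ∃ M : ℝ, ∀ x, ‖iteratedFDeriv ℝ i χ x‖ ≤ M := by
    intro i
    exact ⟨_, fun x => SchwartzMap.norm_iteratedFDeriv_le_seminorm ℝ (hχ2.toSchwartzMap hχ1) i x⟩
  choose M hM using hM
  have hc0 : ∀ k : ℕ, (0 : ℝ) < ((k : ℝ) + 1)⁻¹ := fun k => by positivity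
  have hc1 : ∀ k : ℕ, ((k : ℝ) + 1)⁻¹ ≤ 1 := fun k => by
    apply inv_le_one_of_one_le₀
    have : (0 : ℝ) ≤ k := Nat.cast_nonneg k
    linarith
  obtain ⟨φ, hφ⟩ : ∃ φ : ℕ → E n → ℝ, 
    φ = fun (k : ℕ) (x : E n) => χ (((k : ℝ) + 1)⁻¹ • x) * w x := ⟨_, rfl⟩
  have hχk : ∀ k : ℕ, ContDiff ℝ ∞ (fun x : E n => χ (((k : ℝ) + 1)⁻¹ • x)) := fun k =>
    hχ1.comp (contDiff_const_smul _)
  have hwC : ContDiff ℝ ∞ (w : E n → ℝ) := w.smooth ⊤
  have hφ1 : ∀ k, ContDiff ℝ ∞ (φ k) := fun k => by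
    rw [hφ]
    exact (hχk k).mul hwC
  have hφ2 : ∀ k, HasCompactSupport (φ k) := fun k => by
    rw [hφ]
    exact (hχ2.comp_smul (hc0 k).ne').mul_right
  -- φ k = w near x for large k
  have hev : ∀ x : E n, ∀ᶠ k : ℕ in atTop, φ k =ᶠ[𝓝 x] (w : E n → ℝ) := by
    intro x
    obtain ⟨k0, hk0⟩ := exists_nat_gt ‖x‖
    filter_upwards [eventually_ge_atTop k0] with k hk
    have hk' : (k0 : ℝ) ≤ k := by exact_mod_cast hk
    have h1 : ∀ᶠ y in 𝓝 x, ‖y‖ < (k : ℝ) + 1 :=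
      (continuous_norm.tendsto x).eventually (gt_mem_nhds (by linarith))
    filter_upwards [h1] with y hy
    rw [hφ]
    simp only
    rw [hχ5, one_mul]
    rw [norm_smul, Real.norm_of_nonneg (hc0 k).le, inv_mul_le_iff₀ (by positivity)]
    linarith
  -- the bound
  obtain ⟨Bd, hBd⟩ : ∃ Bd : E n → ℝ, Bd = fun x => n * ∑ i ∈ Finset.range 3,
    ((2 : ℕ).choose i : ℝ) * M i * ‖iteratedFDeriv ℝ (2 - i) (w : E n → ℝ) x‖ := ⟨_, rfl⟩
  have hbound : ∀ k x, |Δ (φ k) x| ≤ Bd x := by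
    intro k x
    refine (abs_lap_le (φ k) x).trans ?_
    rw [hBd]
    apply mul_le_mul_of_nonneg_left _ (Nat.cast_nonneg n)
    have h1 := norm_iteratedFDeriv_mul_le (hχk k) hwC x (n := 2)
      (WithTop.coe_le_coe.2 (le_top : (2 : ℕ∞) ≤ ⊤))
    rw [hφ]
    refine h1.trans ?_
    apply Finset.sum_le_sum
    intro i _
    apply mul_le_mul_of_nonneg_right _ (norm_nonneg _)
    apply mul_le_mul_of_nonneg_left _ (Nat.cast_nonneg _)
    exact norm_iter_comp_smul hχ1 (hc0 k).le (hc1 k) i (hM i) x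
  have hBd0 : ∀ x, 0 ≤ Bd x := fun x => (abs_nonneg _).trans (hbound 0 x)
  have hBdi : Integrable Bd := by
    rw [hBd]
    apply Integrable.const_mul
    apply integrable_finsetSum
    intro i _
    apply Integrable.const_mul
    have := w.integrable_pow_mul_iteratedFDeriv volume 0 (2 - i)
    simpa using this
  have hBdb : ∃ K : ℝ, ∀ x, Bd x ≤ K := by
    refine ⟨n * ∑ i ∈ Finset.range 3, ((2 : ℕ).choose i : ℝ) * M i *
      (SchwartzMap.seminorm ℝ 0 (2 - i) w), fun x => ?_⟩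
    rw [hBd]
    apply mul_le_mul_of_nonneg_left _ (Nat.cast_nonneg n)
    apply Finset.sum_le_sum
    intro i _
    apply mul_le_mul_of_nonneg_left (SchwartzMap.norm_iteratedFDeriv_le_seminorm ℝ w _ x)
    exact mul_nonneg (Nat.cast_nonneg _) ((norm_nonneg _).trans (hM i 0))
  obtain ⟨K, hK⟩ := hBdb
  have hlapw : ∀ x, |Δ (w : E n → ℝ) x| ≤ Bd x := by
    intro x
    obtain ⟨k, hk⟩ := (hev x).exists
    have h1 : Δ (φ k) x = Δ (w : E n → ℝ) x := InnerProductSpace.laplacian_congr_nhds hk |>.eq_of_nhds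
    rw [← h1]
    exact hbound k x
  have hcrit : 0 < crit n := by
    unfold crit
    have : (5 : ℝ) ≤ n := by exact_mod_cast hn
    apply div_pos <;> linarith
  refine ⟨w.memLp _, ?_, φ, fun k => ⟨hφ1 k, hφ2 k⟩, ?_, ?_⟩
  · have h1 := (Δ w : 𝓢(E n, ℝ)).memLp 2
    refine h1.ae_eq (ae_of_all _ fun x => ?_)
    exact SchwartzMap.laplacian_apply w x
  · have h0 : (0 : ℝ) = ∫ _ : E n, (0 : ℝ) := by simp
    rw [h0]
    apply tendsto_integral_of_dominated_convergence (fun x => 4 * K * Bd x)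
    · intro k
      have h1 : Continuous (fun x => (Δ (φ k) x - Δ (w : E n → ℝ) x) ^ 2) := by
        have h2 : (fun x => (Δ (φ k) x - Δ (w : E n → ℝ) x) ^ 2) = fun x =>
            ((Δ ((hφ2 k).toSchwartzMap (hφ1 k)) : 𝓢(E n, ℝ)) x - (Δ w : 𝓢(E n, ℝ)) x) ^ 2 := by
          funext x
          rw [SchwartzMap.laplacian_apply, SchwartzMap.laplacian_apply]
          rfl
        rw [h2]
        fun_prop
      exact h1.aestronglyMeasurable
    · exact hBdi.const_mul _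
    · intro k
      refine ae_of_all _ fun x => ?_
      rw [Real.norm_eq_abs, abs_of_nonneg (sq_nonneg _)]
      have h1 := hbound k x
      have h2 := hlapw x
      have h3 := hBd0 x
      have h4 := hK x
      have h5 : |Δ (φ k) x - Δ (w : E n → ℝ) x| ≤ 2 * Bd x :=
        (abs_sub _ _).trans (by linarith)
      calc (Δ (φ k) x - Δ (w : E n → ℝ) x) ^ 2 = |Δ (φ k) x - Δ (w : E n → ℝ) x| ^ 2 :=
            (sq_abs _).symm
        _ ≤ (2 * Bd x) ^ 2 := pow_le_pow_left₀ (abs_nonneg _) h5 2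
        _ = 4 * Bd x * Bd x := by ring
        _ ≤ 4 * K * Bd x := by nlinarith
    · refine ae_of_all _ fun x => ?_
      apply tendsto_const_nhds.congr'
      filter_upwards [hev x] with k hk
      have h1 : Δ (φ k) x = Δ (w : E n → ℝ) x :=
        InnerProductSpace.laplacian_congr_nhds hk |>.eq_of_nhds
      rw [h1]
      ring
  · have h0 : (0 : ℝ) = ∫ _ : E n, (0 : ℝ) := by simp
    rw [h0]
    apply tendsto_integral_of_dominated_convergence (fun x => |w x| ^ crit n)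
    · intro k
      have h1 : Continuous (fun x => |φ k x - w x| ^ crit n) :=
        (((hφ1 k).continuous.sub w.continuous).abs).rpow_const fun x => Or.inr hcrit.le
      exact h1.aestronglyMeasurable
    · have h1 := (w.memLp (ENNReal.ofReal (crit n))).integrable_norm_rpow
        (by simpa using hcrit) ENNReal.ofReal_ne_top
      rw [ENNReal.toReal_ofReal hcrit.le] at h1
      exact h1
    · intro k
      refine ae_of_all _ fun x => ?_
      rw [Real.norm_eq_abs, abs_of_nonneg (Real.rpow_nonneg (abs_nonneg _) _)]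
      apply Real.rpow_le_rpow (abs_nonneg _) _ hcrit.le
      rw [hφ]
      simp only
      have h1 : χ (((k : ℝ) + 1)⁻¹ • x) * w x - w x = (χ (((k : ℝ) + 1)⁻¹ • x) - 1) * w x := by ring
      rw [h1, abs_mul]
      have h2 : |χ (((k : ℝ) + 1)⁻¹ • x) - 1| ≤ 1 := by
        rw [abs_le]
        have := hχ3 (((k : ℝ) + 1)⁻¹ • x)
        have := hχ4 (((k : ℝ) + 1)⁻¹ • x)
        constructor <;> linarith
      calc |χ (((k : ℝ) + 1)⁻¹ • x) - 1| * |w x| ≤ 1 * |w x| :=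
            mul_le_mul_of_nonneg_right h2 (abs_nonneg _)
        _ = |w x| := one_mul _
    · refine ae_of_all _ fun x => ?_
      apply tendsto_const_nhds.congr'
      filter_upwards [hev x] with k hk
      rw [hk.eq_of_nhds, sub_self, abs_zero, Real.zero_rpow hcrit.ne']

end Pool.Agent.R254.BH
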