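import Mathlib

/-! Definitions and sub-statements for MP_462b8b_an (biharmonic Sobolev constant on cones). -/

open MeasureTheory Set Filter Topology
open scoped ContDiff Laplacian SchwartzMap

namespace Pool.Agent.R254.BH

/-- Euclidean space of dimension `n`. -/
abbrev E (n : ℕ) := EuclideanSpace ℝ (Fin n)

/-- The cone `{r σ : r > 0, σ ∈ S}` over a subset `S` of the unit sphere. -/
def cone {n : ℕ} (S : Set (Metric.sphere (0 : E n) 1)) : Set (E n) :=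
  {x | ∃ r : ℝ, 0 < r ∧ ∃ s ∈ S, x = r • (s : E n)}

/-- The critical exponent `2** = 2n/(n-4)`. -/
noncomputable def crit (n : ℕ) : ℝ := 2 * n / (n - 4)

/-- The quotient `∫_C |Δu|² / (∫_C |u|^{2**})^{2/2**}`. -/
noncomputable def quot {n : ℕ} (C : Set (E n)) (u : E n → ℝ) : ℝ :=
  (∫ x in C, (Δ u x) ^ 2) / (∫ x in C, |u x| ^ (crit n)) ^ (2 / crit n)

/-- The Navier-type class: `u ∈ C²(closure C)` (all derivatives of order at most two extend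
continuously to the closure), `u = 0` on the boundary of `C`, and `u` vanishes near `0` and near
infinity. -/
structure NavierClass {n : ℕ} (C : Set (E n)) (u : E n → ℝ) : Prop where
  cont : ContinuousOn u (closure C)
  contDiffOn : ContDiffOn ℝ 2 u C
  ext1 : ∃ D : E n → (E n →L[ℝ] ℝ), ContinuousOn D (closure C) ∧ ∀ x ∈ C, D x = fderiv ℝ u x
  ext2 : ∃ D : E n → (E n →L[ℝ] E n →L[ℝ] ℝ), ContinuousOn D (closure C) ∧
    ∀ x ∈ C, D x = fderiv ℝ (fderiv ℝ u) x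
  bdry : ∀ x ∈ frontier C, u x = 0
  zero : ∃ r : ℝ, 0 < r ∧ ∀ x ∈ closure C, ‖x‖ ≤ r → u x = 0
  infty : ∃ R : ℝ, ∀ x ∈ closure C, R ≤ ‖x‖ → u x = 0

/-- The Navier-type constant of `C`. -/
noncomputable def navierConst {n : ℕ} (C : Set (E n)) : ℝ :=
  sInf {q : ℝ | ∃ u : E n → ℝ, NavierClass C u ∧ (∃ x ∈ C, u x ≠ 0) ∧ q = quot C u}

/-- Test functions on the whole space. -/
def IsTest {n : ℕ} (φ : E n → ℝ) : Prop := ContDiff ℝ ∞ φ ∧ HasCompactSupport φ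

/-- `u` belongs to the completion `D²(ℝⁿ)` of the test functions for the norm `‖Δφ‖_{L²}`, and `g`
is its Laplacian: `u` is the `L^{2**}`-limit and `g` the `L²`-limit of `φ_k`, `Δφ_k` for a sequence
of test functions `φ_k`. -/
structure D2 {n : ℕ} (u g : E n → ℝ) : Prop where
  memu : MemLp u (ENNReal.ofReal (crit n))
  memg : MemLp g 2
  approx : ∃ φ : ℕ → E n → ℝ, (∀ k, IsTest (φ k)) ∧
    Tendsto (fun k => ∫ x, (Δ (φ k) x - g x) ^ 2) atTop (𝓝 0) ∧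
    Tendsto (fun k => ∫ x, |φ k x - u x| ^ (crit n)) atTop (𝓝 0)

/-- The constant `S**` of the whole space. -/
noncomputable def sStar (n : ℕ) : ℝ :=
  sInf {q : ℝ | ∃ u g : E n → ℝ, D2 u g ∧ ¬ (u =ᵐ[volume] 0) ∧
    q = (∫ x, (g x) ^ 2) / (∫ x, |u x| ^ (crit n)) ^ (2 / crit n)}

/-- The final statement. -/
def Final : Prop := ∀ n : ℕ, 5 ≤ n → ∀ S : Set (Metric.sphere (0 : E n) 1), IsOpen S → S.Nonempty →
  navierConst (cone S) = sStar n ∧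
  ∀ K : Set (E n → ℝ),
    (∀ u, IsTest u → tsupport u ⊆ cone S → u ∈ K) →
    (∀ u ∈ K, NavierClass (cone S) u) →
    sInf {q : ℝ | ∃ u ∈ K, (∃ x ∈ cone S, u x ≠ 0) ∧ q = quot (cone S) u} = sStar n

/-- A: solving `-Δw + μw = f` in the Schwartz class. -/
def StmtA : Prop := ∀ (n : ℕ) (μ : ℝ) (f : E n → ℝ), 0 < μ → IsTest f →
  ∃ w : 𝓢(E n, ℝ), (∀ x, -(Δ (w : E n → ℝ) x) + μ * w x = f x) ∧
    ∫ x, (Δ (w : E n → ℝ) x) ^ 2 ≤ ∫ x, (f x) ^ 2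

/-- B: Schwartz functions belong to `D²`. -/
def StmtB : Prop := ∀ (n : ℕ), 5 ≤ n → ∀ w : 𝓢(E n, ℝ), D2 (w : E n → ℝ) (fun x => Δ (w : E n → ℝ) x)

/-- C: comparison. -/
def StmtC : Prop := ∀ (n : ℕ) (C : Set (E n)) (u f : E n → ℝ) (w : 𝓢(E n, ℝ)) (μ δ : ℝ),
  IsOpen C → NavierClass C u → 0 < μ → 0 < δ → (∀ x, 0 ≤ f x) →
  (∀ x ∈ C, δ ≤ |u x| → |Δ u x| + μ * |u x| ≤ f x) →
  (∀ x, -(Δ (w : E n → ℝ) x) + μ * w x = f x) →
  (∀ x, 0 ≤ w x) ∧ ∀ x ∈ C, |u x| ≤ w x + δ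

/-- F: choice of the right-hand side. -/
def StmtF : Prop := ∀ (n : ℕ) (C : Set (E n)) (u : E n → ℝ) (μ δ ε : ℝ),
  IsOpen C → NavierClass C u → 0 < μ → 0 < δ → 0 < ε →
  ∃ f : E n → ℝ, IsTest f ∧ (∀ x, 0 ≤ f x) ∧
    (∀ x ∈ C, δ ≤ |u x| → |Δ u x| + μ * |u x| ≤ f x) ∧
    ∫ x, (f x) ^ 2 ≤ (∫ x in C, (|Δ u x| + μ * |u x|) ^ 2) + ε

/-- D: the quotients of test functions on the whole space are attained inside the cone. -/
def StmtD : Prop := ∀ (n : ℕ), 5 ≤ n → ∀ (C : Set (E n)), IsOpen C → C.Nonempty →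
  ∀ φ : E n → ℝ, IsTest φ → (∃ x, φ x ≠ 0) →
  ∃ u : E n → ℝ, IsTest u ∧ tsupport u ⊆ C ∧ (∃ x ∈ C, u x ≠ 0) ∧
    quot C u = quot univ φ

/-- G: the lower bound. -/
def StmtG : Prop := ∀ (n : ℕ), 5 ≤ n → ∀ (C : Set (E n)) (u : E n → ℝ), IsOpen C →
  NavierClass C u → (∃ x ∈ C, u x ≠ 0) → sStar n ≤ quot C u

end Pool.Agent.R254.BH
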