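import Mathlib
import Pool.Agent.R254.BH.Stm

/-! StmtD for MP_462b8b_an: dilating a test function into an open set does not change the
quotient. -/

open MeasureTheory Set Filter Topology
open scoped ContDiff Laplacian

namespace Pool.Agent.R254.BH

/-- Second derivative of a composition with a continuous linear map (at one point). -/
theorem iter2_comp {G W F : Type*} [NormedAddCommGroup G] [NormedSpace ℝ G]
    [NormedAddCommGroup W] [NormedSpace ℝ W] [NormedAddCommGroup F] [NormedSpace ℝ F]
    (L : G →L[ℝ] W) (f : W → F) (x : G) (hf : ContDiffAt ℝ 2 f (L x)) (v w : G) :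
    iteratedFDeriv ℝ 2 (f ∘ L) x ![v, w] = iteratedFDeriv ℝ 2 f (L x) ![L v, L w] := by
  have hev : ∀ᶠ z in 𝓝 (L x), ContDiffAt ℝ 2 f z := hf.eventually (by simp)
  obtain ⟨s, hs1, hs2, hs3⟩ := eventually_nhds_iff.mp hev
  have hs4 : IsOpen (L ⁻¹' s) := hs2.preimage L.continuous
  have h := ContinuousLinearMap.iteratedFDerivWithin_comp_right (i := 2) (n := 2) L
    (fun z hz => (hs1 z hz).contDiffWithinAt) hs2.uniqueDiffOn hs4.uniqueDiffOn hs3 le_rfl
  rw [iteratedFDerivWithin_of_isOpen 2 hs4 hs3, iteratedFDerivWithin_of_isOpen 2 hs2 hs3] at h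
  rw [h]
  simp only [ContinuousMultilinearMap.compContinuousLinearMap_apply]
  congr 1
  ext i
  fin_cases i <;> simp

theorem laplacian_affine {n : ℕ} (φ : E n → ℝ) (hφ : ContDiff ℝ 2 φ) (lam : ℝ) (x0 x : E n) :
    Δ (fun y => φ (lam • (y - x0))) x = lam ^ 2 * Δ φ (lam • (x - x0)) := by
  rw [InnerProductSpace.laplacian_eq_iteratedFDeriv_orthonormalBasis _
      (EuclideanSpace.basisFun (Fin n) ℝ),
    InnerProductSpace.laplacian_eq_iteratedFDeriv_orthonormalBasis _
      (EuclideanSpace.basisFun (Fin n) ℝ)]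
  simp only [Finset.mul_sum]
  refine Finset.sum_congr rfl fun i _ => ?_
  set e := EuclideanSpace.basisFun (Fin n) ℝ i
  let L : E n →L[ℝ] E n := lam • ContinuousLinearMap.id ℝ (E n)
  have h1 : iteratedFDeriv ℝ 2 (fun y => φ (lam • (y - x0))) x
      = iteratedFDeriv ℝ 2 (φ ∘ L) (x - x0) := by
    have := iteratedFDeriv_comp_sub (𝕜 := ℝ) (f := φ ∘ L) 2 x0 x
    simpa [L] using this
  rw [h1, iter2_comp L φ (x - x0) hφ.contDiffAt e e]
  have h2 : L (x - x0) = lam • (x - x0) := by simp [L]
  have h3 : L e = lam • e := by simp [L]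
  rw [h2, h3]
  have h4 : (![lam • e, lam • e] : Fin 2 → E n) = fun i => (fun _ => lam) i • ![e, e] i := by
    ext i; fin_cases i <;> simp
  rw [h4, ContinuousMultilinearMap.map_smul_univ]
  simp

theorem laplacian_eq_zero_of_notMem {n : ℕ} (u : E n → ℝ) (x : E n) (hx : x ∉ tsupport u) :
    Δ u x = 0 := by
  have h1 : u =ᶠ[𝓝 x] fun _ => (0:ℝ) := by
    have := notMem_tsupport_iff_eventuallyEq.mp hx
    exact this
  have h2 := InnerProductSpace.laplacian_congr_nhds h1
  rw [h2.self_of_nhds]
  simp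

theorem stmtD : StmtD := by
  intro n hn C hC hCne φ hφ hφ0
  obtain ⟨x0, hx0⟩ := hCne
  obtain ⟨r, hr, hball⟩ := Metric.isOpen_iff.mp hC x0 hx0
  obtain ⟨R0, hR0⟩ := hφ.2.isCompact.isBounded.subset_closedBall (0 : E n)
  set R : ℝ := max R0 1 with hRdef
  have hR : 0 < R := lt_of_lt_of_le one_pos (le_max_right _ _)
  have hsub : tsupport φ ⊆ Metric.closedBall (0 : E n) R :=
    hR0.trans (Metric.closedBall_subset_closedBall (le_max_left _ _))
  set lam : ℝ := 2 * R / r with hlam
  have hlam0 : 0 < lam := by positivity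
  have hlr : lam * (r / 2) = R := by rw [hlam]; field_simp
  let u : E n → ℝ := fun x => φ (lam • (x - x0))
  have hucont : ContDiff ℝ ∞ u := by
    have : ContDiff ℝ ∞ (fun x : E n => lam • (x - x0)) := by fun_prop
    exact hφ.1.comp this
  have hsupp : tsupport u ⊆ Metric.closedBall x0 (r / 2) := by
    apply closure_minimal _ Metric.isClosed_closedBall
    intro x hx
    have h1 : lam • (x - x0) ∈ tsupport φ := subset_tsupport _ hx
    have h2 := hsub h1
    rw [mem_closedBall_zero_iff, norm_smul, Real.norm_of_nonneg hlam0.le, ← hlr] at h2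
    have h3 := le_of_mul_le_mul_left h2 hlam0
    rw [Metric.mem_closedBall, dist_eq_norm]
    exact h3
  have hsuppC : tsupport u ⊆ C := by
    refine hsupp.trans ((Metric.closedBall_subset_ball (by linarith)).trans hball)
  have hucpt : HasCompactSupport u :=
    HasCompactSupport.of_support_subset_isCompact (isCompact_closedBall x0 (r / 2))
      ((subset_tsupport _).trans hsupp)
  refine ⟨u, ⟨hucont, hucpt⟩, hsuppC, ?_, ?_⟩
  · obtain ⟨x, hx⟩ := hφ0
    have h1 : u (x0 + lam⁻¹ • x) ≠ 0 := by
      simp only [u]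
      rw [add_sub_cancel_left, smul_smul, mul_inv_cancel₀ hlam0.ne', one_smul]
      exact hx
    exact ⟨_, hsuppC (subset_tsupport _ h1), h1⟩
  · have hfin : Module.finrank ℝ (E n) = n := by simp
    have habs : |(lam ^ n)⁻¹| = (lam ^ n)⁻¹ := abs_of_pos (by positivity)
    have hI1 : ∫ x in C, (Δ u x) ^ 2 = (lam ^ n)⁻¹ * (lam ^ 4 * ∫ x, (Δ φ x) ^ 2) := by
      rw [setIntegral_eq_integral_of_forall_compl_eq_zero]
      · have h1 : ∀ x, (Δ u x) ^ 2 = (fun y => (lam ^ 2 * Δ φ (lam • y)) ^ 2) (x - x0) := by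
          intro x
          simp only [u]
          rw [laplacian_affine φ (contDiff_infty.mp hφ.1 2) lam x0 x]
        simp_rw [h1]
        rw [integral_sub_right_eq_self (fun y => (lam ^ 2 * Δ φ (lam • y)) ^ 2) x0]
        rw [Measure.integral_comp_smul volume (fun y => (lam ^ 2 * Δ φ y) ^ 2) lam, hfin, habs,
          smul_eq_mul]
        congr 1
        rw [← integral_const_mul]
        congr 1
        ext y
        ring
      · intro x hx
        rw [laplacian_eq_zero_of_notMem u x (fun h => hx (hsuppC h))]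
        simp
    have hn' : (5:ℝ) ≤ n := by exact_mod_cast hn
    have hcrit : 0 < crit n := by
      unfold crit
      apply div_pos <;> linarith
    have hI2 : ∫ x in C, |u x| ^ (crit n) = (lam ^ n)⁻¹ * ∫ x, |φ x| ^ (crit n) := by
      rw [setIntegral_eq_integral_of_forall_compl_eq_zero]
      · have h1 : ∀ x, |u x| ^ (crit n) = (fun y => |φ (lam • y)| ^ (crit n)) (x - x0) := by
          intro x; rfl
        simp_rw [h1]
        rw [integral_sub_right_eq_self (fun y => |φ (lam • y)| ^ (crit n)) x0]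
        rw [Measure.integral_comp_smul volume (fun y => |φ y| ^ (crit n)) lam, hfin, habs,
          smul_eq_mul]
      · intro x hx
        have : u x = 0 := image_eq_zero_of_notMem_tsupport (fun h => hx (hsuppC h))
        rw [this, abs_zero, Real.zero_rpow hcrit.ne']
    unfold quot
    rw [hI1, hI2, Measure.restrict_univ]
    have hB : 0 ≤ ∫ x, |φ x| ^ (crit n) := integral_nonneg fun x => by positivity
    rw [Real.mul_rpow (by positivity) hB]
    have hpow : ((lam ^ n)⁻¹ : ℝ) ^ (2 / crit n) = (lam ^ n)⁻¹ * lam ^ 4 := by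
      rw [← Real.rpow_natCast, ← Real.rpow_neg hlam0.le, ← Real.rpow_mul hlam0.le,
        ← Real.rpow_natCast lam 4, ← Real.rpow_add hlam0]
      congr 1
      unfold crit
      have : (n:ℝ) - 4 ≠ 0 := by linarith
      have h0 : (n:ℝ) ≠ 0 := by linarith
      field_simp
      push_cast
      ring
    rw [hpow, ← mul_assoc]
    have hne : (lam ^ n)⁻¹ * lam ^ 4 ≠ 0 := by positivity
    rw [mul_div_mul_left _ _ hne]

end Pool.Agent.R254.BH
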