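import Mathlib
import Pool.Agent.R254.BH.Stm
import Pool.Agent.R254.BH.D

/-! StmtC (comparison principle) and StmtF (smooth majorant) for MP_462b8b_an. -/

open MeasureTheory Set Filter Topology
open scoped ContDiff Laplacian SchwartzMap

namespace Pool.Agent.R254.BH

/-- Second derivative along a line. -/
theorem iter2_line {G : Type*} [NormedAddCommGroup G] [NormedSpace ℝ G]
    (f : G → ℝ) (x e : G) (hf : ContDiffAt ℝ 2 f x) :
    deriv (deriv (fun t : ℝ => f (x + t • e))) 0 = iteratedFDeriv ℝ 2 f x ![e, e] := by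
  let L : ℝ →L[ℝ] G := ContinuousLinearMap.toSpanSingleton ℝ e
  let f' : G → ℝ := fun v => f (x + v)
  have hf' : ContDiffAt ℝ 2 f' (L 0) := by
    have : ContDiffAt ℝ 2 f (x + L 0) := by simpa using hf
    exact ContDiffAt.comp (L 0) this (by fun_prop)
  have h1 := iter2_comp L f' 0 hf' 1 1
  have h2 : iteratedFDeriv ℝ 2 f' (L 0) = iteratedFDeriv ℝ 2 f (x + L 0) := by
    have := iteratedFDeriv_comp_add_left (𝕜 := ℝ) (f := f) 2 x (L 0)
    simpa [f', add_comm] using this
  have h3 : (f' ∘ L) = fun t : ℝ => f (x + t • e) := by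
    ext t
    simp [f', L]
  rw [h3, h2] at h1
  have h4 : L 1 = e := by simp [L]
  have h5 : L 0 = 0 := by simp
  rw [h4, h5, add_zero] at h1
  rw [← h1]
  have h6 : deriv (deriv (fun t : ℝ => f (x + t • e))) 0 = iteratedDeriv 2 (fun t : ℝ => f (x + t • e)) 0 := by
    rw [iteratedDeriv_succ, iteratedDeriv_one]
  rw [h6, iteratedDeriv_eq_iteratedFDeriv]
  congr 1
  ext i
  fin_cases i <;> simp

/-- At a local maximum the second derivative of a function of one variable is not positive. -/
theorem deriv2_nonpos_of_isLocalMax (g : ℝ → ℝ) (hg : ContinuousAt g 0)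
    (hmax : IsLocalMax g 0) : deriv (deriv g) 0 ≤ 0 := by
  by_contra hcon
  push Not at hcon
  have hd : deriv g 0 = 0 := hmax.deriv_eq_zero
  have hmin : IsLocalMin g 0 := isLocalMin_of_deriv_deriv_pos hcon hd hg
  have hconst : g =ᶠ[𝓝 0] fun _ => g 0 := by
    filter_upwards [hmax, hmin] with t h1 h2
    exact le_antisymm h1 h2
  have h1 : deriv g =ᶠ[𝓝 0] deriv (fun _ => g 0) := hconst.deriv
  have h2 : deriv (deriv g) 0 = deriv (deriv (fun _ : ℝ => g 0)) 0 := h1.deriv_eq
  rw [h2] at hcon
  simp at hcon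

/-- At a local maximum the Laplacian is not positive. -/
theorem laplacian_nonpos_of_isLocalMax {n : ℕ} (s : E n → ℝ)
    (x : E n) (hs : ContDiffAt ℝ 2 s x) (hmax : IsLocalMax s x) :
    Δ s x ≤ 0 := by
  rw [InnerProductSpace.laplacian_eq_iteratedFDeriv_orthonormalBasis s
    (EuclideanSpace.basisFun (Fin n) ℝ)]
  apply Finset.sum_nonpos
  intro j _
  set e := EuclideanSpace.basisFun (Fin n) ℝ j
  rw [← iter2_line s x e hs]
  have hcont : ContinuousAt (fun t : ℝ => x + t • e) 0 := by fun_prop
  have hx0 : x + (0:ℝ) • e = x := by simp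
  apply deriv2_nonpos_of_isLocalMax
  · have hsc : ContinuousAt s (x + (0:ℝ) • e) := by rw [hx0]; exact hs.continuousAt
    exact ContinuousAt.comp (f := fun t : ℝ => x + t • e) (g := s) hsc hcont
  · have h1 : ∀ᶠ z in 𝓝 (x + (0:ℝ) • e), s z ≤ s x := by rw [hx0]; exact hmax
    have h2 := hcont.eventually h1
    filter_upwards [h2] with t ht
    simpa [hx0] using ht

/-- `w ≥ 0`. -/
theorem schwartz_nonneg {n : ℕ} (w : 𝓢(E n, ℝ)) (f : E n → ℝ) (μ : ℝ) (hμ : 0 < μ)
    (hf : ∀ x, 0 ≤ f x) (hw : ∀ x, -(Δ (w : E n → ℝ) x) + μ * w x = f x) (x : E n) :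
    0 ≤ w x := by
  by_contra hneg
  push Not at hneg
  have hz : Tendsto (w : E n → ℝ) (cocompact (E n)) (𝓝 0) := zero_at_infty w
  have hev : ∀ᶠ y in cocompact (E n), w x ≤ w y := by
    filter_upwards [hz.eventually (lt_mem_nhds hneg)] with y hy
    exact hy.le
  obtain ⟨x0, hx0⟩ := w.continuous.exists_forall_le' x hev
  have hx0neg : w x0 < 0 := lt_of_le_of_lt (hx0 x) hneg
  have hsm : ContDiffAt ℝ 2 (w : E n → ℝ) x0 := (w.smooth 2).contDiffAt
  have hmax : IsLocalMax (-(w : E n → ℝ)) x0 := by
    apply Filter.Eventually.of_forall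
    intro y
    simp only [Pi.neg_apply, neg_le_neg_iff]
    exact hx0 y
  have h1 := laplacian_nonpos_of_isLocalMax (-(w : E n → ℝ)) x0 hsm.neg hmax
  rw [InnerProductSpace.laplacian_neg, Pi.neg_apply] at h1
  have h2 := hw x0
  have h3 := hf x0
  nlinarith

/-- One-sided comparison. -/
theorem compare {n : ℕ} (C : Set (E n)) (v f : E n → ℝ) (w : 𝓢(E n, ℝ)) (μ δ R : ℝ)
    (hC : IsOpen C) (hvc : ContinuousOn v (closure C)) (hv2 : ContDiffOn ℝ 2 v C)
    (hbd : ∀ x ∈ frontier C, v x = 0) (hinf : ∀ x ∈ closure C, R ≤ ‖x‖ → v x = 0)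
    (hμ : 0 < μ) (hδ : 0 < δ) (hw0 : ∀ x, 0 ≤ w x)
    (hle : ∀ x ∈ C, δ ≤ v x → -(Δ v x) + μ * v x ≤ f x)
    (hw : ∀ x, -(Δ (w : E n → ℝ) x) + μ * w x = f x) (x0 : E n) (hx0 : x0 ∈ C) :
    v x0 ≤ w x0 + δ := by
  by_contra hcon
  push Not at hcon
  set K : Set (E n) := closure C ∩ Metric.closedBall 0 (max R ‖x0‖) with hK
  have hKc : IsCompact K := (isCompact_closedBall _ _).inter_left isClosed_closure
  have hx0K : x0 ∈ K := ⟨subset_closure hx0, by simp⟩
  have hgc : ContinuousOn (fun x => v x - w x) K :=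
    (hvc.mono inter_subset_left).sub w.continuous.continuousOn
  obtain ⟨x1, hx1K, hx1⟩ := hKc.exists_isMaxOn ⟨x0, hx0K⟩ hgc
  have hg1 : δ < v x1 - w x1 := by
    have := hx1 hx0K
    simp only [mem_ofPred_eq] at this
    linarith
  have hv1 : δ < v x1 := by linarith [hw0 x1]
  have hmaxC : ∀ y ∈ C, v y - w y ≤ v x1 - w x1 := by
    intro y hy
    by_cases hyR : ‖y‖ ≤ max R ‖x0‖
    · exact hx1 (show y ∈ K from ⟨subset_closure hy, by simpa using hyR⟩)
    · push Not at hyR
      have : v y = 0 := hinf y (subset_closure hy) ((le_max_left _ _).trans hyR.le)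
      rw [this]
      linarith [hw0 y]
  have hx1C : x1 ∈ C := by
    by_contra hn
    have : x1 ∈ frontier C := by
      rw [frontier, hC.interior_eq]
      exact ⟨hx1K.1, hn⟩
    rw [hbd x1 this] at hv1
    linarith
  have hnhds : C ∈ 𝓝 x1 := hC.mem_nhds hx1C
  have hvd : ContDiffAt ℝ 2 v x1 := hv2.contDiffAt hnhds
  have hwd : ContDiffAt ℝ 2 (w : E n → ℝ) x1 := (w.smooth 2).contDiffAt
  have hmax : IsLocalMax (v - (w : E n → ℝ)) x1 := by
    filter_upwards [hnhds] with y hy
    exact hmaxC y hy
  have h1 := laplacian_nonpos_of_isLocalMax (v - (w : E n → ℝ)) x1 (hvd.sub hwd) hmax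
  rw [hvd.laplacian_sub hwd] at h1
  have h2 := hle x1 hx1C hv1.le
  have h3 := hw x1
  have h4 : μ * (v x1 - w x1) ≤ 0 := by nlinarith
  have h5 : 0 < μ * (v x1 - w x1) := by
    apply mul_pos hμ
    linarith
  linarith

theorem stmtC : StmtC := by
  intro n C u f w μ δ hC hu hμ hδ hf hfu hw
  have hw0 := schwartz_nonneg w f μ hμ hf hw
  refine ⟨hw0, fun x hx => ?_⟩
  obtain ⟨R, hR⟩ := hu.infty
  rw [abs_le']
  constructor
  · refine compare C u f w μ δ R hC hu.cont hu.contDiffOn hu.bdry hR hμ hδ hw0 ?_ hw x hx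
    intro y hy hyδ
    have h1 := hfu y hy (hyδ.trans (le_abs_self _))
    have h2 := neg_abs_le (Δ u y)
    have h3 := le_abs_self (u y)
    nlinarith
  · have := compare C (-u) f w μ δ R hC hu.cont.neg hu.contDiffOn.neg
      (fun y hy => by simp [hu.bdry y hy]) (fun y hy hyR => by simp [hR y hy hyR]) hμ hδ hw0 ?_
      hw x hx
    · simpa using this
    · intro y hy hyδ
      rw [Pi.neg_apply] at hyδ
      have h1 := hfu y hy (hyδ.trans (neg_le_abs _))
      rw [InnerProductSpace.laplacian_neg, Pi.neg_apply, Pi.neg_apply]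
      have h2 := le_abs_self (Δ u y)
      have h3 := neg_le_abs (u y)
      nlinarith


theorem stmtF : StmtF := by
  intro n C u μ δ ε hC hu hμ hδ hε
  obtain ⟨R0, hR0⟩ := hu.infty
  obtain ⟨D, hDc, hD⟩ := hu.ext2
  let b := EuclideanSpace.basisFun (Fin n) ℝ
  let T : E n → ℝ := fun x => ∑ i, D x (b i) (b i)
  have hT : ∀ x ∈ C, Δ u x = T x := by
    intro x hx
    rw [InnerProductSpace.laplacian_eq_iteratedFDeriv_orthonormalBasis _ b]
    refine Finset.sum_congr rfl fun i _ => ?_
    rw [iteratedFDeriv_two_apply, hD x hx]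
    simp
  have hTc : ContinuousOn T (closure C) := by
    refine continuousOn_finsetSum _ fun i _ => ?_
    exact (hDc.clm_apply continuousOn_const).clm_apply continuousOn_const
  let G : E n → ℝ := fun x => |Δ u x| + μ * |u x|
  let G' : E n → ℝ := fun x => |T x| + μ * |u x|
  have hG0 : ∀ x, 0 ≤ G x := fun x => by positivity
  have hGG' : ∀ x ∈ C, G x = G' x := fun x hx => by simp only [G, G', hT x hx]
  have hG'c : ContinuousOn G' (closure C) := hTc.abs.add (hu.cont.abs.const_mul μ)
  have hGc : ContinuousOn G C :=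
    (hG'c.mono subset_closure).congr hGG'
  -- `G` vanishes outside the ball
  have hGz : ∀ x ∈ C, R0 < ‖x‖ → G x = 0 := by
    intro x hx hxR
    have hopen : IsOpen (C ∩ {y : E n | R0 < ‖y‖}) :=
      hC.inter (isOpen_lt continuous_const continuous_norm)
    have hev : u =ᶠ[𝓝 x] fun _ => (0:ℝ) := by
      filter_upwards [hopen.mem_nhds ⟨hx, hxR⟩] with y hy
      exact hR0 y (subset_closure hy.1) (le_of_lt hy.2)
    have h1 := (InnerProductSpace.laplacian_congr_nhds hev).self_of_nhds
    simp only [G]
    rw [h1, hR0 x (subset_closure hx) hxR.le]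
    simp
  -- compact set
  set K : Set (E n) := {x ∈ closure C | δ ≤ |u x|} with hKdef
  have hKclosed : IsClosed K := by
    have := hu.cont.abs.preimage_isClosed_of_isClosed isClosed_closure (isClosed_Ici (a := δ))
    exact this
  have hKsub : K ⊆ Metric.closedBall (0 : E n) R0 := by
    intro x hx
    rw [mem_closedBall_zero_iff]
    by_contra hcon
    push Not at hcon
    have h1 := hR0 x hx.1 hcon.le
    have h2 := hx.2
    rw [h1, abs_zero] at h2
    linarith
  have hKcpt : IsCompact K := (isCompact_closedBall (0 : E n) R0).of_isClosed_subset hKclosed hKsub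
  have hKC : K ⊆ C := by
    intro x hx
    by_contra hn
    have h1 : x ∈ frontier C := by
      rw [frontier, hC.interior_eq]
      exact ⟨hx.1, hn⟩
    have h2 := hx.2
    rw [hu.bdry x h1, abs_zero] at h2
    linarith
  obtain ⟨L, hLc, hKL, hLC⟩ := exists_compact_between hKcpt hC hKC
  obtain ⟨η, hη1, hη0, -, hη01⟩ := exists_continuous_one_zero_of_isCompact hKcpt
    (isOpen_interior (s := L)).isClosed_compl (disjoint_compl_right_iff_subset.mpr hKL)
  have hηsupp : tsupport η ⊆ L := by
    apply closure_minimal _ hLc.isClosed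
    intro x hx
    by_contra hn
    exact hx (hη0 (fun h => hn (interior_subset h)))
  let h : E n → ℝ := fun x => η x * G x
  have hh0 : ∀ x, 0 ≤ h x := fun x => mul_nonneg (hη01 x).1 (hG0 x)
  have hhsupp : tsupport h ⊆ L := by
    refine Subset.trans ?_ hηsupp
    exact tsupport_mul_subset_left
  have hhc : Continuous h := by
    apply continuous_of_tsupport
    intro x hx
    have hxC : x ∈ C := hLC (hhsupp hx)
    exact η.continuous.continuousAt.mul (hGc.continuousAt (hC.mem_nhds hxC))
  have hhcpt : HasCompactSupport h :=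
    HasCompactSupport.of_support_subset_isCompact hLc ((subset_tsupport _).trans hhsupp)
  obtain ⟨M, hM⟩ := hhcpt.exists_bound_of_continuous hhc
  have hM0 : 0 ≤ M := (norm_nonneg _).trans (hM 0)
  -- big bump
  obtain ⟨R1, hR1⟩ := hLc.isBounded.subset_closedBall (0 : E n)
  set R2 : ℝ := max R1 1 with hR2
  have hR2pos : 0 < R2 := lt_of_lt_of_le one_pos (le_max_right _ _)
  let β : ContDiffBump (0 : E n) := ⟨R2, R2 + 1, hR2pos, by linarith⟩
  have hβ1 : ∀ x ∈ L, β x = 1 := by
    intro x hx
    apply β.one_of_mem_closedBall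
    exact Metric.closedBall_subset_closedBall (le_max_left _ _) (hR1 hx)
  set B : Set (E n) := Metric.closedBall 0 (R2 + 1) with hBdef
  have hβ0 : ∀ x, x ∉ B → β x = 0 := by
    intro x hx
    apply β.zero_of_le_dist
    rw [hBdef, Metric.mem_closedBall] at hx
    push Not at hx
    exact hx.le
  have hBfin : volume B < ⊤ := (isCompact_closedBall _ _).measure_lt_top
  set V : ℝ := volume.real B with hV
  have hV0 : 0 ≤ V := measureReal_nonneg
  -- small parameter
  set s : ℝ := min 1 (ε / ((4 * M + 4) * V + 1)) with hs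
  have hden : 0 < (4 * M + 4) * V + 1 := by positivity
  have hs0 : 0 < s := lt_min one_pos (div_pos hε hden)
  have hs1 : s ≤ 1 := min_le_left _ _
  have hsε : s * ((4 * M + 4) * V) ≤ ε := by
    have h1 : s * ((4 * M + 4) * V + 1) ≤ ε := by
      calc s * ((4 * M + 4) * V + 1) ≤ (ε / ((4 * M + 4) * V + 1)) * ((4 * M + 4) * V + 1) :=
            mul_le_mul_of_nonneg_right (min_le_right _ _) hden.le
        _ = ε := by field_simp
    nlinarith
  obtain ⟨g, hgsm, hgh, hgsupp⟩ := hhc.exists_contDiff_approx ⊤ (ε := fun _ => s)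
    continuous_const (fun _ => hs0)
  let f : E n → ℝ := fun x => g x + s * β x
  have hfsm : ContDiff ℝ ∞ f := hgsm.add (contDiff_const.mul β.contDiff)
  have hg0 : ∀ x, x ∉ L → g x = 0 := by
    intro x hx
    by_contra hn
    exact hx (hhsupp (subset_tsupport _ (hgsupp hn)))
  have hLB : L ⊆ B := hR1.trans (Metric.closedBall_subset_closedBall
    ((le_max_left _ _).trans (by linarith)))
  have hf0 : ∀ x, x ∉ B → f x = 0 := by
    intro x hx
    simp only [f]
    rw [hg0 x (fun h => hx (hLB h)), hβ0 x hx]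
    simp
  have hfcpt : HasCompactSupport f :=
    HasCompactSupport.intro (isCompact_closedBall (0 : E n) (R2 + 1)) hf0
  have hfh : ∀ x, h x ≤ f x := by
    intro x
    by_cases hx : x ∈ L
    · simp only [f]
      rw [hβ1 x hx, mul_one]
      have h1 := hgh x
      rw [Real.dist_eq, abs_lt] at h1
      linarith
    · have h1 : h x = 0 := image_eq_zero_of_notMem_tsupport (fun hh => hx (hhsupp hh))
      simp only [f]
      rw [h1, hg0 x hx, zero_add]
      exact mul_nonneg hs0.le β.nonneg
  have hfle : ∀ x, f x ≤ h x + 2 * s := by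
    intro x
    have h1 := hgh x
    rw [Real.dist_eq, abs_lt] at h1
    have h2 : s * β x ≤ s := by
      have := β.le_one (x := x)
      nlinarith
    simp only [f]
    linarith
  refine ⟨f, ⟨hfsm, hfcpt⟩, fun x => (hh0 x).trans (hfh x), ?_, ?_⟩
  · intro x hx hxδ
    have h1 : x ∈ K := ⟨subset_closure hx, hxδ⟩
    have h2 : h x = G x := by
      simp only [h]
      rw [hη1 h1]
      simp
    have h3 := hfh x
    rw [h2] at h3
    exact h3
  · -- integrability of `G²` on `C`
    have hG2i : IntegrableOn (fun x => (G x) ^ 2) C := by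
      have hcpt : IsCompact (closure C ∩ Metric.closedBall (0 : E n) R0) :=
        (isCompact_closedBall _ _).inter_left isClosed_closure
      have h1 : IntegrableOn (fun x => (G' x) ^ 2) (closure C ∩ Metric.closedBall (0 : E n) R0) :=
        ((hG'c.mono inter_subset_left).pow 2).integrableOn_compact hcpt
      have h2 : IntegrableOn (fun x => (G x) ^ 2) (C ∩ Metric.closedBall (0 : E n) R0) := by
        have h3 := h1.mono_set (inter_subset_inter_left (Metric.closedBall (0 : E n) R0)
          (subset_closure (s := C)))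
        refine h3.congr_fun ?_ (hC.measurableSet.inter Metric.isClosed_closedBall.measurableSet)
        intro x hx
        simp only
        rw [hGG' x hx.1]
      refine h2.of_forall_sdiff_eq_zero hC.measurableSet ?_
      intro x hx
      have hx2 : R0 < ‖x‖ := by
        by_contra hn
        push Not at hn
        exact hx.2 ⟨hx.1, by simpa using hn⟩
      rw [hGz x hx.1 hx2]
      simp
    have hh2i : Integrable (fun x => (h x) ^ 2) := by
      have : HasCompactSupport (fun x => (h x) ^ 2) := by
        refine hhcpt.comp_left (g := fun y : ℝ => y ^ 2) (by simp)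
      exact (hhc.pow 2).integrable_of_hasCompactSupport this
    have hind : Integrable (B.indicator (fun _ => s * (4 * M + 4))) :=
      (integrable_indicator_iff Metric.isClosed_closedBall.measurableSet).mpr
        (integrableOn_const hBfin.ne)
    have hf2i : Integrable (fun x => (f x) ^ 2) := by
      have : HasCompactSupport (fun x => (f x) ^ 2) := by
        refine hfcpt.comp_left (g := fun y : ℝ => y ^ 2) (by simp)
      exact (hfsm.continuous.pow 2).integrable_of_hasCompactSupport this
    have hpt : ∀ x, (f x) ^ 2 ≤ (h x) ^ 2 + B.indicator (fun _ => s * (4 * M + 4)) x := by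
      intro x
      by_cases hx : x ∈ B
      · rw [indicator_of_mem hx]
        have h1 := hfle x
        have h2 := (hh0 x).trans (hfh x)
        have h3 : h x ≤ M := (le_abs_self _).trans (hM x)
        have h4 := hh0 x
        nlinarith [mul_nonneg hs0.le h4, mul_nonneg hs0.le (sub_nonneg.mpr h3),
          mul_nonneg hs0.le (sub_nonneg.mpr hs1)]
      · rw [indicator_of_notMem hx, hf0 x hx]
        have := sq_nonneg (h x)
        simpa using this
    calc ∫ x, (f x) ^ 2 ≤ ∫ x, ((h x) ^ 2 + B.indicator (fun _ => s * (4 * M + 4)) x) :=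
          integral_mono hf2i (hh2i.add hind) hpt
      _ = (∫ x, (h x) ^ 2) + s * ((4 * M + 4) * V) := by
          rw [integral_add hh2i hind, integral_indicator Metric.isClosed_closedBall.measurableSet,
            setIntegral_const, smul_eq_mul]
          ring
      _ = (∫ x in C, (h x) ^ 2) + s * ((4 * M + 4) * V) := by
          rw [setIntegral_eq_integral_of_forall_compl_eq_zero]
          intro x hx
          have h1 : h x = 0 := image_eq_zero_of_notMem_tsupport (fun hh => hx (hLC (hhsupp hh)))
          rw [h1]; simp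
      _ ≤ (∫ x in C, (G x) ^ 2) + ε := by
          refine add_le_add ?_ hsε
          refine setIntegral_mono hh2i.integrableOn hG2i ?_
          intro x
          simp only [h]
          rw [mul_pow]
          have h1 := hη01 x
          have h2 : (η x) ^ 2 ≤ 1 := by nlinarith [h1.1, h1.2]
          nlinarith [sq_nonneg (G x)]

end Pool.Agent.R254.BH
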