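import Mathlib
import Pool.Agent.R254.BH.Stm

/-! Part G of MP_462b8b_an: the lower bound, and the assembly. -/

set_option autoImplicit false

open MeasureTheory Set Filter Topology
open scoped ContDiff Laplacian SchwartzMap

namespace Pool.Agent.R254.BH

namespace G

theorem lap_eq {n : ℕ} (u : E n → ℝ) (x : E n) :
    Δ u x = ∑ i, fderiv ℝ (fderiv ℝ u) x (stdOrthonormalBasis ℝ (E n) i)
      (stdOrthonormalBasis ℝ (E n) i) := by
  rw [InnerProductSpace.laplacian_eq_iteratedFDeriv_stdOrthonormalBasis]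
  simp [iteratedFDeriv_two_apply]

theorem crit_pos {n : ℕ} (hn : 5 ≤ n) : 2 < crit n := by
  have h : (5 : ℝ) ≤ n := by exact_mod_cast hn
  unfold crit
  rw [lt_div_iff₀ (by linarith)]
  linarith

/-- the trace -/
noncomputable def tr {n : ℕ} (D : E n →L[ℝ] E n →L[ℝ] ℝ) : ℝ :=
  ∑ i, D (stdOrthonormalBasis ℝ (E n) i) (stdOrthonormalBasis ℝ (E n) i)

theorem tr_zero {n : ℕ} : tr (0 : E n →L[ℝ] E n →L[ℝ] ℝ) = 0 := by simp [tr]

theorem continuous_tr {n : ℕ} : Continuous (tr : (E n →L[ℝ] E n →L[ℝ] ℝ) → ℝ) := by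
  unfold tr
  fun_prop

theorem lap_eq_tr {n : ℕ} (u : E n → ℝ) (x : E n) : Δ u x = tr (fderiv ℝ (fderiv ℝ u) x) := lap_eq u x

theorem continuous_lap {n : ℕ} {u : E n → ℝ} (hu : ContDiff ℝ ∞ u) : Continuous (Δ u) := by
  have h1 : Continuous (fderiv ℝ (fderiv ℝ u)) := by
    have h2 : ContDiff ℝ ∞ (fderiv ℝ u) := hu.fderiv_right (by simp)
    exact h2.continuous_fderiv (by simp)
  have h3 : Δ u = fun x => tr (fderiv ℝ (fderiv ℝ u) x) := by
    ext x
    exact lap_eq_tr u x
  rw [h3]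
  exact continuous_tr.comp h1

theorem compact_lap {n : ℕ} {u : E n → ℝ} (hu : HasCompactSupport u) : HasCompactSupport (Δ u) := by
  have h4 : HasCompactSupport (fderiv ℝ (fderiv ℝ u)) := (hu.fderiv ℝ).fderiv ℝ
  refine h4.mono' fun x hx => subset_closure ?_
  rw [Function.mem_support] at hx ⊢
  intro h5
  apply hx
  rw [lap_eq_tr, h5]
  simp [tr]

theorem int_aux {n : ℕ} {C : Set (E n)} (hC : MeasurableSet C) {h : E n → ℝ} (hc : ContinuousOn h C)
    {M R : ℝ} (hb : ∀ x ∈ C, |h x| ≤ M) (hz : ∀ x ∈ C, R < ‖x‖ → h x = 0) : IntegrableOn h C := by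
  have h1 : Integrable ((Metric.closedBall (0 : E n) R).indicator (fun _ => M)) := by
    rw [integrable_indicator_iff Metric.isClosed_closedBall.measurableSet]
    exact integrableOn_const (measure_closedBall_lt_top.ne)
  refine Integrable.mono' h1.integrableOn (hc.aestronglyMeasurable hC) ?_
  rw [ae_restrict_iff' hC]
  refine ae_of_all _ fun x hx => ?_
  by_cases hR : ‖x‖ ≤ R
  · rw [indicator_of_mem (by simpa using hR), Real.norm_eq_abs]
    exact hb x hx
  · rw [indicator_of_notMem (by simpa using hR), hz x hx (not_le.1 hR)]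
    simp

/-- Bounds for functions of the Navier class. -/
theorem bounds {n : ℕ} {C : Set (E n)} {u : E n → ℝ} (hC : IsOpen C) (hu : NavierClass C u) :
    ∃ M R : ℝ, 0 ≤ M ∧ (∀ x ∈ C, |u x| ≤ M ∧ |Δ u x| ≤ M) ∧
      ∀ x ∈ C, R < ‖x‖ → u x = 0 ∧ Δ u x = 0 := by
  obtain ⟨R, hR⟩ := hu.infty
  obtain ⟨D, hDc, hD⟩ := hu.ext2
  have hz : ∀ x ∈ C, R < ‖x‖ → u x = 0 ∧ Δ u x = 0 := by
    intro x hx hxR
    refine ⟨hR x (subset_closure hx) hxR.le, ?_⟩
    have h1 : u =ᶠ[𝓝 x] fun _ => (0 : ℝ) := by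
      have h2 : C ∩ {y | R < ‖y‖} ∈ 𝓝 x :=
        (hC.inter (isOpen_lt continuous_const continuous_norm)).mem_nhds ⟨hx, hxR⟩
      filter_upwards [h2] with y hy
      exact hR y (subset_closure hy.1) (le_of_lt hy.2)
    have h3 := (InnerProductSpace.laplacian_congr_nhds h1).eq_of_nhds
    rw [h3]
    simp
  have hK : IsCompact (closure C ∩ Metric.closedBall 0 R) :=
    (isCompact_closedBall (0 : E n) R).inter_left isClosed_closure
  obtain ⟨M₁, hM₁⟩ := hK.exists_bound_of_continuousOn (hu.cont.mono inter_subset_left)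
  have hDn : ContinuousOn (fun x => tr (D x)) (closure C) := continuous_tr.comp_continuousOn hDc
  obtain ⟨M₂, hM₂⟩ := hK.exists_bound_of_continuousOn (hDn.mono inter_subset_left)
  refine ⟨max 0 (max M₁ M₂), R, le_max_left _ _, fun x hx => ?_, hz⟩
  by_cases hxR : ‖x‖ ≤ R
  · have hxK : x ∈ closure C ∩ Metric.closedBall 0 R := ⟨subset_closure hx, by simpa using hxR⟩
    constructor
    · exact (hM₁ x hxK).trans ((le_max_left _ _).trans (le_max_right _ _))
    · rw [lap_eq_tr, ← hD x hx]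
      exact (hM₂ x hxK).trans ((le_max_right _ _).trans (le_max_right _ _))
  · obtain ⟨h1, h2⟩ := hz x hx (not_le.1 hxR)
    rw [h1, h2]
    simp

theorem contOn_lap {n : ℕ} {C : Set (E n)} {u : E n → ℝ} (hu : NavierClass C u) :
    ContinuousOn (Δ u) C := by
  obtain ⟨D, hDc, hD⟩ := hu.ext2
  have h1 : ContinuousOn (fun x => tr (D x)) C :=
    continuous_tr.comp_continuousOn (hDc.mono subset_closure)
  refine h1.congr fun x hx => ?_
  show Δ u x = tr (D x)
  rw [lap_eq_tr, hD x hx]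

theorem sStar_mul_le {n : ℕ} (hn : 5 ≤ n) {u g : E n → ℝ} (h : D2 u g) :
    sStar n * (∫ x, |u x| ^ (crit n)) ^ (2 / crit n) ≤ ∫ x, (g x) ^ 2 := by
  have hp := crit_pos hn
  by_cases h0 : ∫ x, |u x| ^ (crit n) = 0
  · rw [h0, Real.zero_rpow (by positivity), mul_zero]
    exact integral_nonneg fun x => sq_nonneg _
  · have hpos : 0 < ∫ x, |u x| ^ (crit n) :=
      lt_of_le_of_ne (integral_nonneg fun x => Real.rpow_nonneg (abs_nonneg _) _) (Ne.symm h0)
    have hne : ¬ (u =ᵐ[volume] 0) := by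
      intro hz
      apply h0
      have : (fun x => |u x| ^ (crit n)) =ᵐ[volume] fun _ => (0 : ℝ) := by
        filter_upwards [hz] with x hx
        rw [hx]
        simp [Real.zero_rpow (by linarith : crit n ≠ 0)]
      rw [integral_congr_ae this]
      simp
    rw [← le_div_iff₀ (Real.rpow_pos_of_pos hpos _)]
    refine csInf_le ⟨0, ?_⟩ ⟨u, g, h, hne, rfl⟩
    rintro q ⟨v, f, -, -, rfl⟩
    exact div_nonneg (integral_nonneg fun x => sq_nonneg _)
      (Real.rpow_nonneg (integral_nonneg fun x => Real.rpow_nonneg (abs_nonneg _) _) _)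

theorem sStar_nonneg (n : ℕ) : 0 ≤ sStar n := by
  refine Real.sInf_nonneg ?_
  rintro q ⟨v, f, -, -, rfl⟩
  exact div_nonneg (integral_nonneg fun x => sq_nonneg _)
    (Real.rpow_nonneg (integral_nonneg fun x => Real.rpow_nonneg (abs_nonneg _) _) _)

end G

open G in
theorem stmtG (hA : StmtA) (hB : StmtB) (hCc : StmtC) (hF : StmtF) : StmtG := by
  intro n hn C u hC hu hne
  have hp := crit_pos hn
  have hp0 : 0 < crit n := by linarith
  set p := crit n with hpdef
  obtain ⟨M, R, hM0, hb, hz⟩ := bounds hC hu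
  have hmC := hC.measurableSet
  have cu : ContinuousOn u C := hu.cont.mono subset_closure
  have cl : ContinuousOn (Δ u) C := contOn_lap hu
  have iJ : IntegrableOn (fun x => (Δ u x) ^ 2) C := by
    refine int_aux hmC (cl.pow 2) (M := M ^ 2) (R := R) (fun x hx => ?_) fun x hx hR => ?_
    · rw [abs_pow]
      exact pow_le_pow_left₀ (abs_nonneg _) (hb x hx).2 2
    · rw [(hz x hx hR).2]
      simp
  have iB : IntegrableOn (fun x => |Δ u x| * |u x|) C := by
    refine int_aux hmC (cl.abs.mul cu.abs) (M := M * M) (R := R) (fun x hx => ?_) fun x hx hR => ?_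
    · rw [abs_mul, abs_abs, abs_abs]
      exact mul_le_mul (hb x hx).2 (hb x hx).1 (abs_nonneg _) hM0
    · rw [(hz x hx hR).2]
      simp
  have iK : IntegrableOn (fun x => (u x) ^ 2) C := by
    refine int_aux hmC (cu.pow 2) (M := M ^ 2) (R := R) (fun x hx => ?_) fun x hx hR => ?_
    · rw [abs_pow]
      exact pow_le_pow_left₀ (abs_nonneg _) (hb x hx).1 2
    · rw [(hz x hx hR).1]
      simp
  have iP : IntegrableOn (fun x => |u x| ^ p) C := by
    refine int_aux hmC (cu.abs.rpow_const fun x _ => Or.inr hp0.le) (M := M ^ p) (R := R)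
      (fun x hx => ?_) fun x hx hR => ?_
    · rw [abs_of_nonneg (Real.rpow_nonneg (abs_nonneg _) _)]
      exact Real.rpow_le_rpow (abs_nonneg _) (hb x hx).1 hp0.le
    · rw [(hz x hx hR).1]
      simp [Real.zero_rpow hp0.ne']
  have hN : 0 < ∫ x in C, |u x| ^ p := by
    rw [setIntegral_pos_iff_support_of_nonneg_ae
      (ae_of_all _ fun x => Real.rpow_nonneg (abs_nonneg _) _) iP]
    obtain ⟨x₀, hx₀, hux₀⟩ := hne
    have hopen : IsOpen (C ∩ u ⁻¹' {0}ᶜ) := cu.isOpen_inter_preimage hC isOpen_compl_singleton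
    have hpos := hopen.measure_pos volume ⟨x₀, hx₀, hux₀⟩
    refine lt_of_lt_of_le hpos (measure_mono ?_)
    rintro x ⟨hx, hux⟩
    refine ⟨?_, hx⟩
    rw [Function.mem_support]
    have : 0 < |u x| := abs_pos.2 hux
    exact (Real.rpow_pos_of_pos this p).ne'
  -- the inequality for each `m`
  set e : ℕ → ℝ := fun m => 1 / ((m : ℝ) + 1) with he
  have hepos : ∀ m, 0 < e m := fun m => by
    simp only [he]
    positivity
  have hlim : Tendsto e atTop (𝓝 0) := tendsto_one_div_add_atTop_nhds_zero_nat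
  have key : ∀ m, sStar n * (∫ x in C, (max (|u x| - e m) 0) ^ p) ^ (2 / p) ≤
      (∫ x in C, (Δ u x) ^ 2) + e m * (2 * ∫ x in C, |Δ u x| * |u x|) +
        (e m) ^ 2 * (∫ x in C, (u x) ^ 2) + e m := by
    intro m
    obtain ⟨f, hft, hf0, hfu, hfint⟩ := hF n C u (e m) (e m) (e m) hC hu (hepos m) (hepos m) (hepos m)
    obtain ⟨w, hw, hwint⟩ := hA n (e m) f (hepos m) hft
    obtain ⟨hw0, hwu⟩ := hCc n C u f w (e m) (e m) hC hu (hepos m) (hepos m) hf0 hfu hw
    have hD := hB n hn w
    have h1 := sStar_mul_le hn hD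
    have hint : Integrable (fun x => |w x| ^ p) := by
      have h2 := hD.memu.integrable_norm_rpow (by
        rw [Ne, ENNReal.ofReal_eq_zero]
        linarith) ENNReal.ofReal_ne_top
      rw [ENNReal.toReal_ofReal hp0.le] at h2
      exact h2
    have h2 : ∫ x in C, (max (|u x| - e m) 0) ^ p ≤ ∫ x, |w x| ^ p := by
      refine le_trans ?_ (setIntegral_le_integral (s := C) hint
        (ae_of_all _ fun x => Real.rpow_nonneg (abs_nonneg _) _))
      refine setIntegral_mono_on ?_ hint.integrableOn hmC fun x hx => ?_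
      · refine int_aux hmC (ContinuousOn.rpow_const (by fun_prop) fun x _ => Or.inr hp0.le)
          (M := M ^ p) (R := R) (fun x hx => ?_) fun x hx hR => ?_
        · rw [abs_of_nonneg (Real.rpow_nonneg (le_max_right _ _) _)]
          refine Real.rpow_le_rpow (le_max_right _ _) (max_le ?_ hM0) hp0.le
          have := (hb x hx).1
          have := hepos m
          linarith
        · rw [(hz x hx hR).1]
          have : max (|(0 : ℝ)| - e m) 0 = 0 := by
            rw [abs_zero]
            exact max_eq_right (by linarith [hepos m])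
          rw [this, Real.zero_rpow hp0.ne']
      · refine Real.rpow_le_rpow (le_max_right _ _) (max_le ?_ (abs_nonneg _)) hp0.le
        have h3 := hwu x hx
        rw [abs_of_nonneg (hw0 x)]
        linarith
    have h3 : (∫ x in C, (max (|u x| - e m) 0) ^ p) ^ (2 / p) ≤ (∫ x, |w x| ^ p) ^ (2 / p) :=
      Real.rpow_le_rpow (integral_nonneg fun x => Real.rpow_nonneg (le_max_right _ _) _) h2
        (by positivity)
    have h4 : ∫ x in C, (|Δ u x| + e m * |u x|) ^ 2 = (∫ x in C, (Δ u x) ^ 2) +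
        e m * (2 * ∫ x in C, |Δ u x| * |u x|) + (e m) ^ 2 * (∫ x in C, (u x) ^ 2) := by
      rw [← integral_const_mul, ← integral_const_mul, ← integral_const_mul]
      have i2 : IntegrableOn (fun x => e m * (2 * (|Δ u x| * |u x|))) C :=
        (iB.const_mul 2).const_mul (e m)
      have i3 : IntegrableOn (fun x => (e m) ^ 2 * (u x) ^ 2) C := iK.const_mul _
      have i12 : IntegrableOn (fun x => (Δ u x) ^ 2 + e m * (2 * (|Δ u x| * |u x|))) C := iJ.add i2
      rw [← integral_add iJ i2, ← integral_add i12 i3]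
      refine integral_congr_ae (ae_of_all _ fun x => ?_)
      have hs1 := sq_abs (Δ u x)
      have hs2 := sq_abs (u x)
      show (|Δ u x| + e m * |u x|) ^ 2 = (Δ u x) ^ 2 + e m * (2 * (|Δ u x| * |u x|)) +
        (e m) ^ 2 * (u x) ^ 2
      rw [← hs1, ← hs2]
      ring
    calc sStar n * (∫ x in C, (max (|u x| - e m) 0) ^ p) ^ (2 / p)
        ≤ sStar n * (∫ x, |w x| ^ p) ^ (2 / p) := mul_le_mul_of_nonneg_left h3 (sStar_nonneg n)
      _ ≤ ∫ x, (Δ (w : E n → ℝ) x) ^ 2 := h1
      _ ≤ ∫ x, (f x) ^ 2 := hwint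
      _ ≤ (∫ x in C, (|Δ u x| + e m * |u x|) ^ 2) + e m := hfint
      _ = _ := by rw [h4]
  have hlimL : Tendsto (fun m => sStar n * (∫ x in C, (max (|u x| - e m) 0) ^ p) ^ (2 / p)) atTop
      (𝓝 (sStar n * (∫ x in C, |u x| ^ p) ^ (2 / p))) := by
    have h1 : Tendsto (fun m => ∫ x in C, (max (|u x| - e m) 0) ^ p) atTop
        (𝓝 (∫ x in C, |u x| ^ p)) := by
      refine tendsto_integral_of_dominated_convergence (fun x => |u x| ^ p) (fun m => ?_) iP
        (fun m => ?_) ?_
      · refine ContinuousOn.aestronglyMeasurable ?_ hmC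
        exact ContinuousOn.rpow_const (by fun_prop) fun x _ => Or.inr hp0.le
      · refine ae_of_all _ fun x => ?_
        rw [Real.norm_eq_abs, abs_of_nonneg (Real.rpow_nonneg (le_max_right _ _) _)]
        refine Real.rpow_le_rpow (le_max_right _ _) (max_le ?_ (abs_nonneg _)) hp0.le
        linarith [hepos m]
      · refine ae_of_all _ fun x => ?_
        have h2 : Tendsto (fun m => max (|u x| - e m) 0) atTop (𝓝 (max (|u x| - 0) 0)) :=
          (tendsto_const_nhds.sub hlim).max tendsto_const_nhds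
        rw [sub_zero, max_eq_left (abs_nonneg _)] at h2
        exact h2.rpow_const (Or.inr hp0.le)
    exact (h1.rpow_const (Or.inr (by positivity))).const_mul _
  have hlimR : Tendsto (fun m => (∫ x in C, (Δ u x) ^ 2) + e m * (2 * ∫ x in C, |Δ u x| * |u x|) +
        (e m) ^ 2 * (∫ x in C, (u x) ^ 2) + e m) atTop (𝓝 (∫ x in C, (Δ u x) ^ 2)) := by
    have h1 := (((hlim.mul_const (2 * ∫ x in C, |Δ u x| * |u x|)).const_add
      (∫ x in C, (Δ u x) ^ 2)).add ((hlim.pow 2).mul_const (∫ x in C, (u x) ^ 2))).add hlim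
    simpa using h1
  have hfin := le_of_tendsto_of_tendsto' hlimL hlimR key
  unfold quot
  rw [le_div_iff₀ (Real.rpow_pos_of_pos hN _)]
  exact hfin

end Pool.Agent.R254.BH
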