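import Mathlib
import Pool.Agent.R254.BH.Stm
import Pool.Agent.R254.BH.G

/-! Assembly of MP_462b8b_an from the parts D and G. -/

set_option autoImplicit false

open MeasureTheory Set Filter Topology
open scoped ContDiff Laplacian SchwartzMap

namespace Pool.Agent.R254.BH

namespace G

/-- `∫ |f|^p` in terms of the norm in `L^p`. -/
theorem norm_toLp_rpow {n : ℕ} {p : ℝ} (hp : 1 ≤ p) {f : E n → ℝ}
    (hf : MemLp f (ENNReal.ofReal p)) : ‖hf.toLp f‖ ^ p = ∫ x, |f x| ^ p := by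
  have hp0 : 0 < p := by linarith
  have hnn : 0 ≤ ∫ x, |f x| ^ p := integral_nonneg fun x => Real.rpow_nonneg (abs_nonneg _) _
  rw [Lp.norm_toLp, hf.eLpNorm_eq_integral_rpow_norm (by
    rw [Ne, ENNReal.ofReal_eq_zero]
    linarith) ENNReal.ofReal_ne_top, ENNReal.toReal_ofReal hp0.le]
  simp only [Real.norm_eq_abs]
  rw [ENNReal.toReal_ofReal (Real.rpow_nonneg hnn _), ← Real.rpow_mul hnn, inv_mul_cancel₀ hp0.ne',
    Real.rpow_one]

theorem norm_toLp_eq {n : ℕ} {p : ℝ} (hp : 1 ≤ p) {f : E n → ℝ}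
    (hf : MemLp f (ENNReal.ofReal p)) : ‖hf.toLp f‖ = (∫ x, |f x| ^ p) ^ p⁻¹ := by
  have hp0 : 0 < p := by linarith
  have hnn : 0 ≤ ∫ x, |f x| ^ p := integral_nonneg fun x => Real.rpow_nonneg (abs_nonneg _) _
  rw [Lp.norm_toLp, hf.eLpNorm_eq_integral_rpow_norm (by
    rw [Ne, ENNReal.ofReal_eq_zero]
    linarith) ENNReal.ofReal_ne_top, ENNReal.toReal_ofReal hp0.le]
  simp only [Real.norm_eq_abs]
  rw [ENNReal.toReal_ofReal (Real.rpow_nonneg hnn _)]

theorem tendsto_int_rpow {n : ℕ} {p : ℝ} (hp : 1 ≤ p) {f : ℕ → E n → ℝ} {g : E n → ℝ}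
    (hf : ∀ k, MemLp (f k) (ENNReal.ofReal p)) (hg : MemLp g (ENNReal.ofReal p))
    (h : Tendsto (fun k => ∫ x, |f k x - g x| ^ p) atTop (𝓝 0)) :
    Tendsto (fun k => ∫ x, |f k x| ^ p) atTop (𝓝 (∫ x, |g x| ^ p)) := by
  have hp0 : 0 < p := by linarith
  haveI : Fact (1 ≤ ENNReal.ofReal p) := ⟨by
    rw [← ENNReal.ofReal_one]
    exact ENNReal.ofReal_le_ofReal hp⟩
  have h1 : Tendsto (fun k => (hf k).toLp (f k)) atTop (𝓝 (hg.toLp g)) := by
    rw [tendsto_iff_norm_sub_tendsto_zero]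
    have h2 : ∀ k, ‖(hf k).toLp (f k) - hg.toLp g‖ = (∫ x, |f k x - g x| ^ p) ^ p⁻¹ := by
      intro k
      rw [← MemLp.toLp_sub, norm_toLp_eq hp]
      simp only [Pi.sub_apply]
    have h3 : Tendsto (fun k => (∫ x, |f k x - g x| ^ p) ^ p⁻¹) atTop (𝓝 (0 ^ p⁻¹)) :=
      h.rpow_const (Or.inr (by positivity))
    rw [Real.zero_rpow (inv_ne_zero hp0.ne')] at h3
    exact h3.congr fun k => (h2 k).symm
  have h4 := (h1.norm).rpow_const (p := p) (Or.inr hp0.le)
  rw [norm_toLp_rpow hp hg] at h4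
  exact h4.congr fun k => norm_toLp_rpow hp (hf k)

theorem test_memLp {n : ℕ} {φ : E n → ℝ} (hφ : IsTest φ) (p : ENNReal) : MemLp φ p :=
  hφ.1.continuous.memLp_of_hasCompactSupport hφ.2

theorem test_lap_memLp {n : ℕ} {φ : E n → ℝ} (hφ : IsTest φ) (p : ENNReal) : MemLp (Δ φ) p :=
  (continuous_lap hφ.1).memLp_of_hasCompactSupport (compact_lap hφ.2)

theorem test_D2 {n : ℕ} (hn : 5 ≤ n) {φ : E n → ℝ} (hφ : IsTest φ) : D2 φ (Δ φ) := by
  have hp := crit_pos hn
  refine ⟨test_memLp hφ _, test_lap_memLp hφ _, fun _ => φ, fun _ => hφ, ?_, ?_⟩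
  · simp
  · have : ∀ x : E n, |φ x - φ x| ^ crit n = 0 := fun x => by
      rw [sub_self, abs_zero, Real.zero_rpow (by linarith)]
    simp only [this]
    simp

/-- Test functions supported in an open set not containing `0` belong to the Navier class. -/
theorem test_navier {n : ℕ} {C : Set (E n)} (hC : IsOpen C) (h0 : (0 : E n) ∉ C) {φ : E n → ℝ}
    (hφ : IsTest φ) (hs : tsupport φ ⊆ C) : NavierClass C φ := by
  have h1 : ContDiff ℝ ∞ (fderiv ℝ φ) := hφ.1.fderiv_right (by simp)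
  have h2' : ContDiff ℝ 2 φ := by exact_mod_cast contDiff_infty.1 hφ.1 2
  refine ⟨hφ.1.continuous.continuousOn, h2'.contDiffOn,
    ⟨fderiv ℝ φ, h1.continuous.continuousOn, fun x _ => rfl⟩,
    ⟨fderiv ℝ (fderiv ℝ φ), (h1.continuous_fderiv (by simp)).continuousOn, fun x _ => rfl⟩, ?_, ?_, ?_⟩
  · intro x hx
    have hxC : x ∉ C := by
      rw [hC.frontier_eq] at hx
      exact hx.2
    exact image_eq_zero_of_notMem_tsupport fun h => hxC (hs h)
  · have h2 : (tsupport φ)ᶜ ∈ 𝓝 (0 : E n) :=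
      (isClosed_tsupport φ).isOpen_compl.mem_nhds fun h => h0 (hs h)
    obtain ⟨r, hr, hball⟩ := Metric.mem_nhds_iff.1 h2
    refine ⟨r / 2, by positivity, fun x _ hx => ?_⟩
    refine image_eq_zero_of_notMem_tsupport (hball ?_)
    rw [mem_ball_zero_iff]
    linarith
  · obtain ⟨R, hR⟩ := hφ.2.isBounded.exists_norm_le
    refine ⟨R + 1, fun x _ hx => ?_⟩
    refine image_eq_zero_of_notMem_tsupport fun h => ?_
    have := hR x h
    linarith

theorem zero_notMem_cone {n : ℕ} (S : Set (Metric.sphere (0 : E n) 1)) : (0 : E n) ∉ cone S := by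
  rintro ⟨r, hr, s, -, h⟩
  have h1 : ‖(0 : E n)‖ = r := by
    rw [h, norm_smul, Real.norm_eq_abs, abs_of_pos hr, norm_eq_of_mem_sphere, mul_one]
  rw [norm_zero] at h1
  linarith

theorem cone_nonempty {n : ℕ} {S : Set (Metric.sphere (0 : E n) 1)} (hS : S.Nonempty) :
    (cone S).Nonempty := by
  obtain ⟨s, hs⟩ := hS
  exact ⟨(s : E n), 1, one_pos, s, hs, by simp⟩

theorem isOpen_cone {n : ℕ} {S : Set (Metric.sphere (0 : E n) 1)} (hS : IsOpen S) :
    IsOpen (cone S) := by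
  let N : {x : E n // x ≠ 0} → Metric.sphere (0 : E n) 1 := fun x =>
    ⟨(‖(x : E n)‖)⁻¹ • (x : E n), by
      rw [mem_sphere_zero_iff_norm, norm_smul, norm_inv, norm_norm,
        inv_mul_cancel₀ (norm_ne_zero_iff.2 x.2)]⟩
  have hN : Continuous N := by
    refine Continuous.subtype_mk ?_ _
    refine Continuous.smul (Continuous.inv₀ (by fun_prop) fun x => norm_ne_zero_iff.2 x.2)
      continuous_subtype_val
  have h1 : cone S = Subtype.val '' (N ⁻¹' S) := by
    ext x
    constructor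
    · rintro ⟨r, hr, s, hs, rfl⟩
      have hne : r • (s : E n) ≠ 0 := smul_ne_zero hr.ne' (by
        intro h
        have := norm_eq_of_mem_sphere s
        rw [h, norm_zero] at this
        exact zero_ne_one this)
      refine ⟨⟨r • (s : E n), hne⟩, ?_, rfl⟩
      have : N ⟨r • (s : E n), hne⟩ = s := by
        apply Subtype.ext
        show (‖r • (s : E n)‖)⁻¹ • (r • (s : E n)) = s
        rw [norm_smul, Real.norm_eq_abs, abs_of_pos hr, norm_eq_of_mem_sphere, mul_one, smul_smul,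
          inv_mul_cancel₀ hr.ne', one_smul]
      rw [mem_preimage, this]
      exact hs
    · rintro ⟨y, hy, rfl⟩
      refine ⟨‖(y : E n)‖, norm_pos_iff.2 y.2, N y, hy, ?_⟩
      show (y : E n) = ‖(y : E n)‖ • ((‖(y : E n)‖)⁻¹ • (y : E n))
      rw [smul_smul, mul_inv_cancel₀ (norm_ne_zero_iff.2 y.2), one_smul]
  rw [h1]
  exact (isOpen_compl_singleton.isOpenMap_subtype_val) _ (hS.preimage hN)

theorem exists_test (n : ℕ) : ∃ φ : E n → ℝ, IsTest φ ∧ ∃ x, φ x ≠ 0 := by
  let b : ContDiffBump (0 : E n) := ⟨1, 2, one_pos, one_lt_two⟩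
  refine ⟨b, ⟨b.contDiff, b.hasCompactSupport⟩, 0, ?_⟩
  rw [b.one_of_mem_closedBall (by simp [b.rIn_pos.le])]
  exact one_ne_zero

theorem quot_nonneg {n : ℕ} (C : Set (E n)) (u : E n → ℝ) : 0 ≤ quot C u :=
  div_nonneg (integral_nonneg fun x => sq_nonneg _)
    (Real.rpow_nonneg (integral_nonneg fun x => Real.rpow_nonneg (abs_nonneg _) _) _)

theorem main (hG : StmtG) (hD : StmtD) {n : ℕ} (hn : 5 ≤ n) {C : Set (E n)} (hC : IsOpen C)
    (hne : C.Nonempty) (K : Set (E n → ℝ)) (hK₁ : ∀ u, IsTest u → tsupport u ⊆ C → u ∈ K)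
    (hK₂ : ∀ u ∈ K, NavierClass C u) :
    sInf {q : ℝ | ∃ u ∈ K, (∃ x ∈ C, u x ≠ 0) ∧ q = quot C u} = sStar n := by
  have hp := crit_pos hn
  have hp0 : 0 < crit n := by linarith
  have hbdd : BddBelow {q : ℝ | ∃ u ∈ K, (∃ x ∈ C, u x ≠ 0) ∧ q = quot C u} := by
    refine ⟨0, ?_⟩
    rintro q ⟨u, -, -, rfl⟩
    exact quot_nonneg C u
  -- quotients of test functions
  have htest : ∀ φ : E n → ℝ, IsTest φ → (∃ x, φ x ≠ 0) →
      sInf {q : ℝ | ∃ u ∈ K, (∃ x ∈ C, u x ≠ 0) ∧ q = quot C u} ≤ quot univ φ := by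
    intro φ hφ hx
    obtain ⟨u, hu, hs, hx', hq⟩ := hD n hn C hC hne φ hφ hx
    rw [← hq]
    exact csInf_le hbdd ⟨u, hK₁ u hu hs, hx', rfl⟩
  obtain ⟨φ₀, hφ₀, hx₀⟩ := exists_test n
  apply le_antisymm
  · refine le_csInf ?_ ?_
    · refine ⟨_, φ₀, Δ φ₀, test_D2 hn hφ₀, ?_, rfl⟩
      intro h
      obtain ⟨x, hx⟩ := hx₀
      have := (hφ₀.1.continuous.ae_eq_iff_eq volume continuous_zero).1 h
      exact hx (congrFun this x)
    · rintro q ⟨u, g, hD2, hne0, rfl⟩
      obtain ⟨φ, hφ, hφg, hφu⟩ := hD2.approx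
      have hpos : 0 < ∫ x, |u x| ^ crit n := by
        have hint : Integrable (fun x => |u x| ^ crit n) := by
          have h2 := hD2.memu.integrable_norm_rpow (by
            rw [Ne, ENNReal.ofReal_eq_zero]
            linarith) ENNReal.ofReal_ne_top
          rw [ENNReal.toReal_ofReal hp0.le] at h2
          exact h2
        refine lt_of_le_of_ne (integral_nonneg fun x => Real.rpow_nonneg (abs_nonneg _) _) ?_
        intro h0
        apply hne0
        have h3 := (integral_eq_zero_iff_of_nonneg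
          (fun x => Real.rpow_nonneg (abs_nonneg (u x)) _) hint).1 h0.symm
        filter_upwards [h3] with x hx
        have hx' : |u x| ^ crit n = 0 := hx
        rw [Real.rpow_eq_zero (abs_nonneg _) hp0.ne', abs_eq_zero] at hx'
        exact hx'
      have h1 : Tendsto (fun k => ∫ x, |φ k x| ^ crit n) atTop (𝓝 (∫ x, |u x| ^ crit n)) :=
        tendsto_int_rpow (by linarith) (fun k => test_memLp (hφ k) _) hD2.memu hφu
      have h2 : Tendsto (fun k => ∫ x, (Δ (φ k) x) ^ 2) atTop (𝓝 (∫ x, (g x) ^ 2)) := by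
        have e2 : ENNReal.ofReal 2 = 2 := by norm_num
        have h3 := tendsto_int_rpow (n := n) (p := 2) (by norm_num) (f := fun k => Δ (φ k)) (g := g)
          (fun k => test_lap_memLp (hφ k) _) (by rw [e2]; exact hD2.memg) (by
            refine hφg.congr fun k => integral_congr_ae (ae_of_all _ fun x => ?_)
            show (Δ (φ k) x - g x) ^ 2 = |Δ (φ k) x - g x| ^ (2 : ℝ)
            rw [Real.rpow_two, sq_abs])
        simp only [Real.rpow_two, sq_abs] at h3
        exact h3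
      have h4 : Tendsto (fun k => quot univ (φ k)) atTop
          (𝓝 ((∫ x, (g x) ^ 2) / (∫ x, |u x| ^ crit n) ^ (2 / crit n))) := by
        have h5 := h2.div (h1.rpow_const (p := 2 / crit n) (Or.inl hpos.ne'))
          (Real.rpow_pos_of_pos hpos _).ne'
        refine h5.congr fun k => ?_
        unfold quot
        rw [setIntegral_univ, setIntegral_univ]
        rfl
      have h6 : ∀ᶠ k in atTop, sInf {q : ℝ | ∃ u ∈ K, (∃ x ∈ C, u x ≠ 0) ∧ q = quot C u} ≤
          quot univ (φ k) := by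
        filter_upwards [h1.eventually_const_lt hpos] with k hk
        refine htest (φ k) (hφ k) ?_
        by_contra hcon
        push Not at hcon
        have : ∫ x, |φ k x| ^ crit n = 0 := by
          have h7 : ∀ x, |φ k x| ^ crit n = 0 := fun x => by
            rw [hcon x, abs_zero, Real.zero_rpow hp0.ne']
          simp [h7]
        linarith
      exact ge_of_tendsto h4 h6
  · refine le_csInf ?_ ?_
    · obtain ⟨u, hu, hs, hx', -⟩ := hD n hn C hC hne φ₀ hφ₀ hx₀
      exact ⟨_, u, hK₁ u hu hs, hx', rfl⟩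
    · rintro q ⟨u, hu, hx, rfl⟩
      exact hG n hn C u hC (hK₂ u hu) hx

end G

open G in
theorem final (hG : StmtG) (hD : StmtD) : Final := by
  intro n hn S hS hne
  have hC := isOpen_cone hS
  have hCne := cone_nonempty hne
  refine ⟨?_, fun K h₁ h₂ => main hG hD hn hC hCne K h₁ h₂⟩
  exact main hG hD hn hC hCne {u | NavierClass (cone S) u}
    (fun u hu hs => test_navier hC (zero_notMem_cone S) hu hs) (fun u hu => hu)

end Pool.Agent.R254.BH
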