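import Mathlib
import Pool.Agent.R254.BH.Fin
import Pool.Agent.R254.BH.A
import Pool.Agent.R254.BH.B
import Pool.Agent.R254.BH.CF
import Pool.Agent.R254.BH.D

/-! The definitions of `Stm.lean` over a general Euclidean space, in small pieces, and the transfer of the final
statement. -/

set_option autoImplicit false

open MeasureTheory Set Filter Topology
open scoped ContDiff Laplacian

namespace Pool.Agent.R254.BHGen

section general

variable {V : Type} [NormedAddCommGroup V] [InnerProductSpace ℝ V] [FiniteDimensional ℝ V]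
  [MeasurableSpace V] [BorelSpace V]

/-- The cone `{r s : r > 0, s ∈ S}` over a subset `S` of the unit sphere. -/
def cone (S : Set (Metric.sphere (0 : V) 1)) : Set V :=
  {x | ∃ r : ℝ, 0 < r ∧ ∃ s ∈ S, x = r • (s : V)}

/-- The quotient `∫_C |Δu|² / (∫_C |u|^p)^{2/p}`. -/
noncomputable def quot (p : ℝ) (C : Set V) (u : V → ℝ) : ℝ :=
  (∫ x in C, (Δ u x) ^ 2) / (∫ x in C, |u x| ^ p) ^ (2 / p)

/-- The derivative of `f` extends continuously from `C` to the closure of `C`. -/
def DerivExt {W : Type} [NormedAddCommGroup W] [NormedSpace ℝ W] (C : Set V) (f : V → W) : Prop :=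
  ∃ D : V → (V →L[ℝ] W), ContinuousOn D (closure C) ∧ ∀ x ∈ C, D x = fderiv ℝ f x

/-- `u ∈ C²(closure C)`: `u` is continuous on the closure of `C` and twice continuously differentiable in `C`, and the
first and second derivatives extend continuously to the closure of `C`. -/
structure C2Closure (C : Set V) (u : V → ℝ) : Prop where
  cont : ContinuousOn u (closure C)
  contDiffOn : ContDiffOn ℝ 2 u C
  ext1 : DerivExt C u
  ext2 : DerivExt C (fderiv ℝ u)

/-- The Navier-type class: `u ∈ C²(closure C)`, `u = 0` on the boundary of `C`, and `u` vanishes near `0` and near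
infinity. -/
structure NavierClass (C : Set V) (u : V → ℝ) : Prop where
  c2 : C2Closure C u
  bdry : ∀ x ∈ frontier C, u x = 0
  zero : ∃ r : ℝ, 0 < r ∧ ∀ x ∈ closure C, ‖x‖ ≤ r → u x = 0
  infty : ∃ R : ℝ, ∀ x ∈ closure C, R ≤ ‖x‖ → u x = 0

/-- The Navier-type constant of `C`. -/
noncomputable def navierConst (p : ℝ) (C : Set V) : ℝ :=
  sInf {q : ℝ | ∃ u : V → ℝ, NavierClass C u ∧ (∃ x ∈ C, u x ≠ 0) ∧ q = quot p C u}

/-- Test functions on the whole space. -/
def IsTest (φ : V → ℝ) : Prop := ContDiff ℝ ∞ φ ∧ HasCompactSupport φ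

/-- `u` belongs to the completion `D²` of the test functions for the norm `‖Δφ‖_{L²}`, and `g` is its Laplacian: `u`
is the `L^p`-limit and `g` the `L²`-limit of `φ_k`, `Δφ_k` for a sequence of test functions `φ_k`. -/
structure D2 (p : ℝ) (u g : V → ℝ) : Prop where
  memu : MemLp u (ENNReal.ofReal p)
  memg : MemLp g 2
  approx : ∃ φ : ℕ → V → ℝ, (∀ k, IsTest (φ k)) ∧
    Tendsto (fun k => ∫ x, (Δ (φ k) x - g x) ^ 2) atTop (𝓝 0) ∧
    Tendsto (fun k => ∫ x, |φ k x - u x| ^ p) atTop (𝓝 0)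

variable (V) in
/-- The constant `S**` of the whole space (for `p = 2**`). -/
noncomputable def sStar (p : ℝ) : ℝ :=
  sInf {q : ℝ | ∃ u g : V → ℝ, D2 p u g ∧ ¬ (u =ᵐ[volume] 0) ∧
    q = (∫ x, (g x) ^ 2) / (∫ x, |u x| ^ p) ^ (2 / p)}

end general

/-- The critical exponent `2** = 2n/(n-4)`. -/
noncomputable def crit (n : ℕ) : ℝ := 2 * n / (n - 4)

/-- Euclidean space of dimension `n`. -/
abbrev E (n : ℕ) := EuclideanSpace ℝ (Fin n)

/-- The unit sphere of `E n`. -/
abbrev Sph (n : ℕ) := Metric.sphere (0 : E n) 1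

/-- The cone over `S`, a subset of `E n`. -/
def Cone {n : ℕ} (S : Set (Sph n)) : Set (E n) := cone S

/-- The quotient with the critical exponent. -/
noncomputable def QuotE {n : ℕ} (C : Set (E n)) (u : E n → ℝ) : ℝ := quot (crit n) C u

/-- The Navier-type class in `E n`. -/
def Navier {n : ℕ} (C : Set (E n)) (u : E n → ℝ) : Prop := NavierClass C u

/-- Test functions on `E n`. -/
def Test {n : ℕ} (u : E n → ℝ) : Prop := IsTest u

/-- The Navier-type constant of `C`. -/
noncomputable def NavierConst {n : ℕ} (C : Set (E n)) : ℝ := navierConst (crit n) C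

/-- The constant `S**` of `ℝⁿ`. -/
noncomputable def SStar (n : ℕ) : ℝ := sStar (E n) (crit n)

/-- The infimum of the quotient over the members of `K` that are not identically `0` on `C`. -/
noncomputable def infOver {n : ℕ} (C : Set (E n)) (K : Set (E n → ℝ)) : ℝ :=
  sInf {q : ℝ | ∃ u ∈ K, (∃ x ∈ C, u x ≠ 0) ∧ q = QuotE C u}

theorem navier_iff {n : ℕ} (C : Set (E n)) (u : E n → ℝ) : NavierClass C u ↔ BH.NavierClass C u := by
  constructor
  · intro h
    exact ⟨h.c2.cont, h.c2.contDiffOn, h.c2.ext1, h.c2.ext2, h.bdry, h.zero, h.infty⟩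
  · intro h
    exact ⟨⟨h.cont, h.contDiffOn, h.ext1, h.ext2⟩, h.bdry, h.zero, h.infty⟩

theorem d2_iff {n : ℕ} (u g : E n → ℝ) : D2 (crit n) u g ↔ BH.D2 u g := by
  constructor
  · intro h
    exact ⟨h.memu, h.memg, h.approx⟩
  · intro h
    exact ⟨h.memu, h.memg, h.approx⟩

theorem sStar_eq (n : ℕ) : sStar (E n) (crit n) = BH.sStar n := by
  unfold sStar BH.sStar
  simp only [d2_iff]
  rfl

theorem final {n : ℕ} (hn : 5 ≤ n) (S : Set (Sph n)) (hS : IsOpen S) (hne : S.Nonempty) :
    NavierConst (Cone S) = SStar n ∧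
    ∀ K : Set (E n → ℝ), (∀ u, Test u → tsupport u ⊆ Cone S → u ∈ K) →
      (∀ u ∈ K, Navier (Cone S) u) → infOver (Cone S) K = SStar n := by
  have h := BH.final (BH.stmtG BH.stmtA BH.stmtB BH.stmtC BH.stmtF) BH.stmtD n hn S hS hne
  unfold SStar
  rw [sStar_eq]
  refine ⟨?_, fun K h₁ h₂ => h.2 K h₁ fun u hu => (navier_iff _ u).1 (h₂ u hu)⟩
  refine Eq.trans ?_ h.1
  unfold NavierConst navierConst BH.navierConst
  simp only [navier_iff]
  rfl

end Pool.Agent.R254.BHGen
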